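import Pool.Agent.H885.BaseN
import Pool.Agent.H885.UnifTw
import Pool.Agent.H885.FewT
import Pool.Graph.R_pool_sql_team_seeded_620a6dc7.Helper880_R3.Res

/-!
# The torsor form of the period conjecture for the fibres near degenerate central fibres, uniformly in the families

For `j = 1, …, N` let `X_j → B_j` be a smooth projective family over `ℚ` over the complement of a divisor with normal
crossings in a neighbourhood of `0` in the affine space of **any dimension `m`**, with unipotent local monodromies: the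
central fibre over `0` may be **degenerate**. In rational bases of the canonical extension the period matrix of (a direct
factor of rank `n` of) the cohomology is `P_j(x) = Ω_j x_1^(R_{j1}) ⋯ x_m^(R_{jm}) Z_j(x)`; the `R_{ji}` are the
residues, commuting nilpotent matrices (they can be made integral), `Z_j` is a matrix of G-functions over `ℚ` in the `m`
variables, and `Ω_j` is the period matrix of the limit mixed Hodge structure. In the direction `a_j ∈ ℤ^m` one has
`P_j(a_j u) = C_j u^(R_j) Z_j(a_j u)`, where `R_j = ∑_i R_{ji}` and `C_j = Ω_j ∏_i a_{ji}^(R_{ji})` is the period matrix of the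
limit mixed Hodge structure at the tangential base point `a_j`. Let `M_0` be another object over `ℚ` with period matrix
`C₀`. For the rational points `x_j = a_j / b_j`, `b_j ∈ ℕ`, let

  `c = C₀ ⊕ P_1(x_1) ⊕ … ⊕ P_N(x_N)`,   `P_j(x_j) = C_j exp (-log(b_j) R_j) Z_j(a_j / b_j)`,

the period matrix of `M_0 ⊕ ⨁ M_{x_j}`. Grothendieck's conjecture implies that the torsor of motivic isomorphisms of
`H_dR` and `H_B` is contained, up to connected components, in all `K`-subtorsors `T` with `c ∈ T`, for all number fields `K`.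

For degenerate central fibres only **one-parameter** families at the points `1 / t` are treated in the library: without
exceptions if the central periods are few compared with the monodromy (`AllFibresFewCentralPeriods`, one family), and with
at most `trdeg + 1` exceptions in each window (`AllFamiliesWindows`, `UnboundedProducts`, for a given family); our
`FewExceptionalDenominators` (MP_caab05_ag) is for points `a / b` in bases of any dimension and uniform in the families, for
central fibres which are **not** degenerate. For the family of curves `y² = f(x) (x - t)`, `f` of degree `2 g`, which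
degenerate for `t → ∞` (with unipotent monodromy after the twist by `√(-t)`), the degree-`δ` statement is known for a set of
`t ∈ ℕ` of density one for each `δ` (problem file).

**Theorem.** Fix `m, n, N, M, q, D, s, ℓ, e`, the size of `C₀`, and `r ≥ ℓ`. There is `E` such that for all complex
numbers `β_1, …, β_s`, all `H, h, w` and all `b₀ ≥ (2 H (h + w + 2))^E` there is a set `F` of **at most
`M ⌊(s + 1) / (r + 1 - ℓ)⌋` exceptional denominators** with the following property. Take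

* **all** tuples `b_1, …, b_N` of denominators in the window `[b₀, b₀ + w]`, at most `M` of them different, such that the
  distances of different `b_j` and of the `b_j` from the elements of `F` are larger than `2^(m+1) H (h + 2)`,
* **all** limits and objects `M_0` such that, up to one common factor, the entries of `C₀` and `C_1, …, C_N` are
  algebraic (of degree at most `e`) over the field generated by `β_1, …, β_s` and `ℓ` further numbers,
* **all** families, that is, all commuting nilpotent integral `R_{ji}` and all `n × n` systems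
  `T (x_i ∂Z_j / ∂x_i + R_{ji} Z_j) = Z_j A_{ji}` of degree at most `q`, for which the height of the system and the growth
  constants of the coefficients and of the denominators of `Z_j` and `Z_j⁻¹` are at most `H`,
* **all** numerators `a_j ∈ ℤ^m` with `|a_j| ≤ h`, such that the line `ℚ a_j` is not contained in the polar locus `T = 0`,
* all Lie algebras `𝔤_1, …, 𝔤_N`, normalised by `R_1, …, R_N`, which are semisimple (or have only quotients without centre) and
  have no proper subalgebra of codimension at most `r`, for which `∏ 𝔤_j` consists, for each `β`, of infinitesimal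
  symmetries of the restrictions of the `Z_j` with `b_j = β` to the lines `ℚ a_j`; **no** condition is needed for points with
  different denominators, even if the families are equal,
* **all** number fields `K` with `[K : ℚ] ≤ D` and **all** `K`-subtorsors `T ∋ c` (defined by equations of any degree).

Then:

1. `T` is stable under `1 × ∏ exp (C_j 𝔤_j C_j⁻¹)`.
2. If the `𝔤_j` contain the Lie algebras of the special isometry groups of forms `B_j` (big monodromy), then `T` is, in the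
   torsor of all isomorphisms `x_0 ⊕ ⨁ X_j` which respect the polarisations, the full inverse image of its image under
   `(x_0, det X_1, …, det X_N)` (without the determinants in the alternating case).
3. In the absolute case `M_0 = ℚ(-1)`, `C₀ = 2 π i`, `T` is equal to the torsor `T_pol` of all isomorphisms which respect
   the polarisations (and determinants) as soon as it is contained in it; so `T_pol` is the torsor of motivic
   isomorphisms, and it is the smallest `K`-subtorsor through `c`.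

For the special isometry groups of forms `B` we show that the condition on subalgebras holds if `r ≤ n - 2` (alternating),
`4 r < n` (symmetric) and `2 r + 2 < n` (`B = 0`).

The hypothesis on symmetries: let `G` be the differential Galois group of the restriction of `⨁ Y_j`, `Y_j = x^(R_j) Z_j`, to
the lines (the Zariski closure of the monodromy group), `b_j = β`, and let it be connected and perfect; it contains the
groups `exp (λ R)`, `R = ⊕ R_j`. Then `log x` is transcendental over the field generated by the `Y_j` over `ℂ(x)`, since `G` has no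
quotient `𝔾_a`. So if a polynomial `f` over `ℂ[x]` vanishes at `Z = exp (-log x R) Y` then it vanishes at all
`exp (-λ R) Y`, hence on `G Y`, and at `g Z` for `g ∈ G`: the Lie algebra of `G` consists of symmetries, and it is normalised by
`R`. (This remark is not part of the Lean theorem.)

Special cases. (a) `s = 0`, `ℓ ≤ r - 1`: **no exceptions**. For example the hypergeometric families of Calabi-Yau varieties of
rank `2 k ≥ 6` at the point of maximal degeneration, `ℓ = k` (the limit periods are generated by `2 π i, ζ(3), …, ζ(2 k - 1)`),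
`r = 2 k - 2`; for rank `4` (the mirror of the quintic threefold) at most one exceptional denominator in each window.
(b) The curves `C_t : y² = f(x) (x - t)`, `t → ∞`, `n = 2 g`, monodromy `Sp(2 g)`, `r = 2 g - 2`: at most
`⌊(s + 1) / (2 g - 1)⌋` exceptional `t` (up to their neighbours) in each window `[b₀, b₀ + b₀^(1/E) / (2 H) - h - 2]`, for **all**
`K`-subtorsors, if the limit periods generate a field of transcendence degree `s`; for the products of `C_t, C_{t'}, …` at
`M` points of the window at most `M ⌊(s + 1) / (2 g - 1)⌋`, and the same set is exceptional for all `f` and all families of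
bounded height with limit periods in the given field. The twist by `√(-t)` is harmless: it changes `K` to
`K(√(-t))`. (c) `r = ℓ = 0`: **arbitrary** degenerations and all semisimple monodromy groups: at most `M (s + 1)` exceptional
denominators, uniformly in the families and in the directions. (d) In bases of dimension `m ≥ 2`: all families of
hypersurfaces, curves, … near a degenerate member over a normal crossings point of the discriminant, all rational points
`a / b` with `|a| ≤ b^(1/E) / (2 H) - 2` and all directions `a` at the same time.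

Only subtorsors are treated: the Zariski closure of the period point is not contained in any smaller subtorsor. That the
period matrices of families have the form `Ω x^R Z(x)` with `Z` as above is from the literature and not part of the Lean
theorem.

Proof (`Pool/Agent/H885`). (i) A linear independence theorem for values of G-functions at `1 / t` (`Gr`, `Sel`, `Lift`) in
which all constants are explicit powers of the height of the system and no independence of the functions is assumed: each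
`ℚ`-linear relation between the values is the specialisation of a relation between the functions. (ii) Galochkin's
condition for `x^R Z` with the same kind of constants (`GN`): the binomial coefficients `binom(θ + R, k)` of a nilpotent
integral matrix `R` have small denominators; restriction to lines (`BaseN`). (iii) **Twisted shifts** (`EPm`, `TwS`, `CurTw`): for a common
`t > b_j`, `g_j = t - b_j`, the functions `exp (-log(1 - g_j x) R_j) Z_j(x / (1 - g_j x))` are again G-functions of this kind, and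
their values at `x = 1 / t` are `exp (-log(b_j / t) R_j) Z_j(1 / b_j)`, so that **only one further number** `log t` is needed for
all points of the window. (iv) A symmetry of the functions which belong to one denominator is a symmetry of all of them
together (`BlkN`, `JointN`, `JointN2`): the functions are continued analytically to a disc about `g_j` in which only the
functions with this `g_j` have singularities; relations with powers of `log(1 - g_j x)` split (the monodromy of the logarithm),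
and at each point the symmetry is conjugated by `exp (λ R_j)`, `λ = log(1 - g_j x)`. (v) So relations of bounded degree between
the values are preserved along curves `exp (s X) z` (`CurTw2`), and in an ultraproduct of sequences of counterexamples there are
derivations of `*ℂ` over `*ℚ` which move the values at each chosen point by an arbitrary element of the Lie algebra and
kill the values at all other points (`UnifTw`). (vi) A pigeonhole principle: these derivations act on `β_1, …, β_s, log t`, a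
space of dimension `s + 1`; if `⌊(s + 1) / (r + 1 - ℓ)⌋ + 1` separated tuples were exceptional, then for one of them the
derivations could be corrected by those for the other ones so that they act on the constants through a space of dimension
at most `r` (`CoreP`, `CoreT`), and then an argument on subalgebras of codimension at most `r` shows that this tuple is not
exceptional (`CoreS`). The consequences 2 and 3 of 1 are from `Helper880_R3` (`OutC`).
-/

set_option autoImplicit false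

open PowerSeries Filter
open scoped Matrix

namespace Pool.Agent.Results.MP_cbf1af_ag.FewExceptionalNearDegenerate

section several
variable {n m N : ℕ}

/-- an integer polynomial in `m` variables as a power series with rational coefficients -/
noncomputable def toQ (P : MvPolynomial (Fin m) ℤ) : MvPowerSeries (Fin m) ℚ :=
  ((P.map (Int.castRingHom ℚ) : MvPolynomial (Fin m) ℚ) : MvPowerSeries (Fin m) ℚ)

/-- the partial derivative `∂f / ∂x_i` -/
noncomputable def partialD (i : Fin m) (f : MvPowerSeries (Fin m) ℚ) : MvPowerSeries (Fin m) ℚ :=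
  fun ν => ((ν i : ℚ) + 1) * MvPowerSeries.coeff (ν + Finsupp.single i 1) f

/-- `Z` is an invertible `n × n` matrix of G-functions in `m` variables with rational coefficients, `W = Z⁻¹`, `R_1, …, R_m`
are commuting nilpotent integral matrices, and `x_1^(R_1) ⋯ x_m^(R_m) Z` solves a system with logarithmic poles, that is,
`T (x_i ∂Z / ∂x_i + R_i Z) = Z A_i`, `i = 1, …, m`. The degrees of `T` and `A_i` are at most `q`; the absolute values of their
coefficients and of the entries of the `R_i` and the growth of the coefficients of `Z` and of the denominators of the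
coefficients of `Z` and `W` are bounded by `H`. -/
structure Family (q : ℕ) (H : ℝ) (T : MvPolynomial (Fin m) ℤ) (A : Fin m → Fin n → Fin n → MvPolynomial (Fin m) ℤ)
    (R : Fin m → Matrix (Fin n) (Fin n) ℤ) (Z W : Matrix (Fin n) (Fin n) (MvPowerSeries (Fin m) ℚ)) : Prop where
  /-- the degree of `T` -/
  degT : T.totalDegree ≤ q
  /-- the height of `T` -/
  sizeT : ∀ ν, |((T.coeff ν : ℤ) : ℝ)| ≤ H
  /-- the degrees of the `A_i` -/
  degA : ∀ i a b, (A i a b).totalDegree ≤ q
  /-- the heights of the `A_i` -/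
  sizeA : ∀ i a b ν, |(((A i a b).coeff ν : ℤ) : ℝ)| ≤ H
  /-- the residues commute -/
  comm : ∀ i i', R i * R i' = R i' * R i
  /-- the residues are nilpotent -/
  nil : ∀ i, R i ^ n = 0
  /-- the size of the residues -/
  sizeR : ∀ i a b, |((R i a b : ℤ) : ℝ)| ≤ H
  /-- the differential equations -/
  ode : ∀ i a b, toQ T * (MvPowerSeries.X i * partialD i (Z a b) + ∑ c, MvPowerSeries.C (R i a c : ℚ) * Z c b) =
    ∑ l, Z a l * toQ (A i l b)
  /-- `W` is the inverse of `Z` -/
  inv : W * Z = 1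
  /-- the growth of the coefficients -/
  size : ∀ a b (ν : Fin m →₀ ℕ), |((MvPowerSeries.coeff ν (Z a b) : ℚ) : ℝ)| ≤ H ^ (∑ i, ν i + 1)
  /-- the growth of the common denominators of the coefficients -/
  den : ∀ k : ℕ, ∃ d : ℕ, 0 < d ∧ (d : ℝ) ≤ H ^ (k + 1) ∧ ∀ a b (ν : Fin m →₀ ℕ), ∑ i, ν i ≤ k →
    (∃ z : ℤ, (d : ℚ) * MvPowerSeries.coeff ν (Z a b) = z) ∧ ∃ z : ℤ, (d : ℚ) * MvPowerSeries.coeff ν (W a b) = z

/-- the matrix `R_1 + … + R_m`, the residue of the restriction to a line through `0`, over `ℂ` -/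
noncomputable def residue (R : Fin m → Matrix (Fin n) (Fin n) ℤ) : Matrix (Fin n) (Fin n) ℂ :=
  (∑ i, R i).map (Int.castRingHom ℂ)

/-- the power series `f(x a)` in the variable `x`, the restriction of `f` to the line through `0` with direction `a` -/
noncomputable def restrict (a : Fin m → ℤ) (f : MvPowerSeries (Fin m) ℚ) : PowerSeries ℚ :=
  PowerSeries.mk fun k => ∑ ν ∈ (Finset.univ : Finset (Fin m)).finsuppAntidiag k,
    MvPowerSeries.coeff ν f * ∏ i, (a i : ℚ) ^ ν i

/-- the value `Z(a / b)`, that is, the value of the restriction of `Z` to the line at `x = 1 / b` -/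
noncomputable def value (Z : Matrix (Fin n) (Fin n) (MvPowerSeries (Fin m) ℚ)) (a : Fin m → ℤ) (b : ℕ) :
    Matrix (Fin n) (Fin n) ℂ :=
  Matrix.of fun i j => ((∑' k : ℕ, ((coeff k (restrict a (Z i j)) : ℚ) : ℝ) * (1 / (b : ℝ)) ^ k : ℝ) : ℂ)

/-- the matrix `u^(R_1 + … + R_m) Z(a u)` at `u = 1 / b`, that is, `exp (-log(b) (R_1 + … + R_m)) Z(a / b)` -/
noncomputable def solution (R : Fin m → Matrix (Fin n) (Fin n) ℤ) (Z : Matrix (Fin n) (Fin n) (MvPowerSeries (Fin m) ℚ))
    (a : Fin m → ℤ) (b : ℕ) : Matrix (Fin n) (Fin n) ℂ :=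
  NormedSpace.exp (-((Real.log b : ℂ) • residue R)) * value Z a b

/-- the restriction of `Z` to the line with direction `a`, over `ℂ` -/
noncomputable def onLine (a : Fin m → ℤ) (Z : Matrix (Fin n) (Fin n) (MvPowerSeries (Fin m) ℚ)) :
    Matrix (Fin n) (Fin n) (PowerSeries ℂ) :=
  Z.map fun f => PowerSeries.map (algebraMap ℚ ℂ) (restrict a f)

/-- `(X_1, …, X_N)` is an infinitesimal symmetry of the matrices `Y_1, …, Y_N` of power series: for all polynomial relations
`R(x, Y_1(x), …, Y_N(x)) = 0` over `ℂ[x]` the derivative of `R(x, (1 + ε X_1) Y_1(x), …, (1 + ε X_N) Y_N(x))` at `ε = 0` is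
zero. -/
def Symmetry (Y : Fin N → Matrix (Fin n) (Fin n) (PowerSeries ℂ)) (X : Fin N → Matrix (Fin n) (Fin n) ℂ) : Prop :=
  ∀ R : MvPolynomial (Fin N × Fin n × Fin n) (Polynomial ℂ),
    MvPolynomial.aeval (fun σ => Y σ.1 σ.2.1 σ.2.2) R = 0 →
    ∑ σ, MvPolynomial.aeval (fun σ => Y σ.1 σ.2.1 σ.2.2) (MvPolynomial.pderiv σ R) *
      ((X σ.1).map (PowerSeries.C (R := ℂ)) * Y σ.1) σ.2.1 σ.2.2 = 0

end several

section lie
variable {n : ℕ}

/-- `𝔤` is closed under commutators -/
def IsLieAlg (𝔤 : Submodule ℂ (Matrix (Fin n) (Fin n) ℂ)) : Prop := ∀ x ∈ 𝔤, ∀ y ∈ 𝔤, x * y - y * x ∈ 𝔤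

/-- all quotients `𝔤 / I` have trivial centre; semisimple Lie algebras have this property -/
def CentreFree (𝔤 : Submodule ℂ (Matrix (Fin n) (Fin n) ℂ)) : Prop :=
  ∀ I : Submodule ℂ (Matrix (Fin n) (Fin n) ℂ), I ≤ 𝔤 → (∀ x ∈ 𝔤, ∀ y ∈ I, x * y - y * x ∈ I) →
    ∀ x ∈ 𝔤, (∀ y ∈ 𝔤, x * y - y * x ∈ I) → x ∈ I

/-- all proper subalgebras of `𝔤` have codimension larger than `r` -/
def NoSmall (r : ℕ) (𝔤 : Submodule ℂ (Matrix (Fin n) (Fin n) ℂ)) : Prop :=
  ∀ 𝔥 : Submodule ℂ (Matrix (Fin n) (Fin n) ℂ), 𝔥 ≤ 𝔤 → IsLieAlg 𝔥 →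
    Module.finrank ℂ 𝔤 ≤ Module.finrank ℂ 𝔥 + r → 𝔤 ≤ 𝔥

/-- nondegenerate alternating forms -/
def Symplectic (B : Matrix (Fin n) (Fin n) ℂ) : Prop := IsUnit B ∧ Bᵀ = -B

/-- The form is zero, or nondegenerate and alternating, or nondegenerate and symmetric of rank different from `2`. -/
def Classical (B : Matrix (Fin n) (Fin n) ℂ) : Prop := B = 0 ∨ Symplectic B ∨ (IsUnit B ∧ Bᵀ = B ∧ n ≠ 2)

/-- The form is zero and `2 r + 2 < n`, or it is nondegenerate and alternating and `r ≤ n - 2`, or nondegenerate and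
symmetric and `4 r < n`, `n ≠ 2`. -/
def Small (r : ℕ) (B : Matrix (Fin n) (Fin n) ℂ) : Prop :=
  (B = 0 ∧ 2 * r + 2 < n) ∨ (Symplectic B ∧ r + 2 ≤ n) ∨ (IsUnit B ∧ Bᵀ = B ∧ n ≠ 2 ∧ 4 * r < n)

/-- `X` is in the Lie algebra of the group of all matrices of determinant `1` which respect `B` -/
def IsInfinitesimal (B X : Matrix (Fin n) (Fin n) ℂ) : Prop := X.trace = 0 ∧ X * B + B * Xᵀ = 0

/-- `𝔤` is a Lie algebra, all its quotients have trivial centre, and all proper subalgebras have codimension larger than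
`r`; or it is the Lie algebra of the special isometry group of a form for which `Small r B` holds (this case is in fact
contained in the first one, as we show). -/
def Admissible (r : ℕ) (𝔤 : Submodule ℂ (Matrix (Fin n) (Fin n) ℂ)) : Prop :=
  (IsLieAlg 𝔤 ∧ CentreFree 𝔤 ∧ NoSmall r 𝔤) ∨ ∃ B, Small r B ∧ ∀ X, X ∈ 𝔤 ↔ IsInfinitesimal B X

/-- `y` satisfies an equation `P(b, y) = 0` where `P` has rational coefficients and total degree at most `e` and `P(b, Y)` is
not the zero polynomial -/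
def AlgebraicOver (e : ℕ) {s : ℕ} (b : Fin s → ℂ) (y : ℂ) : Prop :=
  ∃ P : MvPolynomial (Option (Fin s)) ℚ, P.totalDegree ≤ e ∧ MvPolynomial.aeval (fun o : Option (Fin s) => o.elim y b) P = 0 ∧
    ∃ y' : ℂ, MvPolynomial.aeval (fun o : Option (Fin s) => o.elim y' b) P ≠ 0

/-- Up to a common factor `κ` the entries of `C₀` and of the `C_j` are algebraic over the field generated by the given numbers
`β_1, …, β_s` and by `ℓ` further numbers, with equations of degree at most `e`. -/
def FewPeriods {r s N : ℕ} (ℓ e : ℕ) (β : Fin s → ℂ) (C₀ : Matrix (Fin r) (Fin r) ℂ) (C : Fin N → Matrix (Fin n) (Fin n) ℂ) :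
    Prop :=
  ∃ (γ : Fin ℓ → ℂ) (κ : ℂ), κ ≠ 0 ∧ (∀ i j, AlgebraicOver e (Fin.append β γ) (κ * C₀ i j)) ∧
    ∀ l i j, AlgebraicOver e (Fin.append β γ) (κ * C l i j)

/-- If up to a common factor the entries of `C₀` and of the `C_j` are algebraic over the field generated by
`β_1, …, β_s, γ_1, …, γ_ℓ` then the condition `FewPeriods ℓ e β` holds for some `e`. -/
theorem fewPeriods_of_isAlgebraic {r s ℓ N : ℕ} {C₀ : Matrix (Fin r) (Fin r) ℂ} {C : Fin N → Matrix (Fin n) (Fin n) ℂ}
    {β : Fin s → ℂ} {γ : Fin ℓ → ℂ} {κ : ℂ} (hκ : κ ≠ 0)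
    (h₀ : ∀ i j, IsAlgebraic (IntermediateField.adjoin ℚ (Set.range (Fin.append β γ))) (κ * C₀ i j))
    (h : ∀ l i j, IsAlgebraic (IntermediateField.adjoin ℚ (Set.range (Fin.append β γ))) (κ * C l i j)) :
    ∃ e, FewPeriods ℓ e β C₀ C := by
  obtain ⟨e, h1, h2⟩ := Pool.Agent.H885.fewT_of_alg h₀ h
  exact ⟨e, γ, κ, hκ, h1, h2⟩

end lie

/-- `T` is (the set of complex points of) a `K`-subtorsor of `GL_B = Iso (M_dR, M_B)`: it is closed under `x y⁻¹ z`, and
it is defined in `GL_B` by polynomials with coefficients in `K`. -/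
def IsSubtorsor (K : Subfield ℂ) {B : Type} [Fintype B] [DecidableEq B] (T : Set (Matrix B B ℂ)) : Prop :=
  (∀ x ∈ T, ∀ y ∈ T, ∀ z ∈ T, x * y⁻¹ * z ∈ T) ∧ ∃ I : Set (MvPolynomial (B × B) K), ∀ x : Matrix B B ℂ, x ∈ T ↔
    IsUnit x ∧ ∀ p ∈ I, MvPolynomial.eval (fun b => x b.1 b.2) (MvPolynomial.map (algebraMap K ℂ) p) = 0

section
variable {n N r : ℕ}

/-- the block matrix `x ⊕ X_1 ⊕ … ⊕ X_N` -/
def total (x : Matrix (Fin r) (Fin r) ℂ) (X : Fin N → Matrix (Fin n) (Fin n) ℂ) :
    Matrix (Fin r ⊕ (Fin n × Fin N)) (Fin r ⊕ (Fin n × Fin N)) ℂ :=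
  Matrix.fromBlocks x 0 0 (Matrix.blockDiagonal X)

/-- the isomorphisms `X_j` respect the polarisations `Q_j` (de Rham) and `B_j` (Betti) up to the factors `μ_j` -/
def Respects (B Q : Fin N → Matrix (Fin n) (Fin n) ℂ) (μ : Fin N → ℂ) (X : Fin N → Matrix (Fin n) (Fin n) ℂ) : Prop :=
  (∀ j, μ j ≠ 0) ∧ ∀ j, X j * Q j * (X j)ᵀ = μ j • B j

/-- The isomorphisms `z ⊕ … ⊕ z ⊕ X_1 ⊕ … ⊕ X_N` of an `r`-fold sum of the object `ℚ(-1)` and of the `M_j` which respect
the polarisations `Q_j` (de Rham) and `B_j` (Betti), with values in `ℚ(-w_j)`, and the identifications of `det M_j` with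
`ℚ(-m_j)` up to a twist (no condition on the determinant is needed if `B_j` is symplectic). -/
def torsorOf (r : ℕ) (B Q : Fin N → Matrix (Fin n) (Fin n) ℂ) (w m : Fin N → ℤ) (δ : Fin N → ℂ) :
    Set (Matrix (Fin r ⊕ (Fin n × Fin N)) (Fin r ⊕ (Fin n × Fin N)) ℂ) :=
  {y | ∃ z : ℂ, z ≠ 0 ∧ ∃ X : Fin N → Matrix (Fin n) (Fin n) ℂ, y = total (z • 1) X ∧
    ∀ j, X j * Q j * (X j)ᵀ = z ^ (w j) • B j ∧ (Symplectic (B j) ∨ (X j).det = δ j * z ^ (m j))}

/-- The conclusion for one tuple of fibres; `C j` is the period matrix of the limit and `P j` the period matrix of the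
fibre at the point `x_j`, for the family with number `j`. -/
def Good (D : ℕ) (C₀ : Matrix (Fin r) (Fin r) ℂ) (C : Fin N → Matrix (Fin n) (Fin n) ℂ)
    (𝔤 : Fin N → Submodule ℂ (Matrix (Fin n) (Fin n) ℂ)) (P : Fin N → Matrix (Fin n) (Fin n) ℂ) : Prop :=
  ∀ K : Subfield ℂ, FiniteDimensional ℚ K → Module.finrank ℚ K ≤ D →
  ∀ T : Set (Matrix (Fin r ⊕ (Fin n × Fin N)) (Fin r ⊕ (Fin n × Fin N)) ℂ), IsSubtorsor K T → total C₀ P ∈ T →
  -- 1: stability
  (∀ X : Fin N → Matrix (Fin n) (Fin n) ℂ, (∀ j, X j ∈ 𝔤 j) → ∀ x ∈ T,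
    total 1 (fun j => NormedSpace.exp (C j * X j * (C j)⁻¹)) * x ∈ T) ∧
  -- 2: classical monodromy groups, relative case
  (∀ B : Fin N → Matrix (Fin n) (Fin n) ℂ, (∀ j, Classical (B j)) → (∀ j X, IsInfinitesimal (B j) X → X ∈ 𝔤 j) →
    ∀ (Q : Fin N → Matrix (Fin n) (Fin n) ℂ) (μ : Fin N → ℂ) (x₀ : Matrix (Fin r) (Fin r) ℂ)
      (X Y : Fin N → Matrix (Fin n) (Fin n) ℂ), Respects (fun j => C j * B j * (C j)ᵀ) Q μ X →
      Respects (fun j => C j * B j * (C j)ᵀ) Q μ Y →
      (∀ j, Symplectic (B j) ∨ (X j).det = (Y j).det) → total x₀ X ∈ T → total x₀ Y ∈ T) ∧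
  -- 3: classical monodromy groups, absolute case
  (0 < r → C₀ = (2 * Real.pi * Complex.I : ℂ) • 1 →
    ∀ B : Fin N → Matrix (Fin n) (Fin n) ℂ, (∀ j, Classical (B j)) → (∀ j X, IsInfinitesimal (B j) X → X ∈ 𝔤 j) →
    ∀ (Q : Fin N → Matrix (Fin n) (Fin n) ℂ) (w m : Fin N → ℤ) (δ : Fin N → ℂ),
      T ⊆ torsorOf r (fun j => C j * B j * (C j)ᵀ) Q w m δ → T = torsorOf r (fun j => C j * B j * (C j)ᵀ) Q w m δ)

end

/-- the distance of `b` and `c` is larger than `2^(m+1) H (h + 2)` -/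
def Far (m : ℕ) (H : ℝ) (h b c : ℕ) : Prop := 2 ^ (m + 1) * H * ((h : ℝ) + 2) < |(b : ℝ) - c|

/-- the tuple `b` of denominators is in the window `[b₀, b₀ + w]`, its members are equal or far from each other, and it has
at most `M` different members -/
def Allowed {N : ℕ} (m M : ℕ) (H : ℝ) (h w b₀ : ℕ) (b : Fin N → ℕ) : Prop :=
  (∀ j, b₀ ≤ b j ∧ b j ≤ b₀ + w) ∧ (∀ i j, b i = b j ∨ Far m H h (b i) (b j)) ∧ (Finset.univ.image b).card ≤ M

/-! ## Proofs -/

theorem base_of {m n q : ℕ} {H : ℝ} (hH : 1 ≤ H) {T : MvPolynomial (Fin m) ℤ}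
    {A : Fin m → Fin n → Fin n → MvPolynomial (Fin m) ℤ} {R : Fin m → Matrix (Fin n) (Fin n) ℤ}
    {Z W : Matrix (Fin n) (Fin n) (MvPowerSeries (Fin m) ℚ)}
    (h : Family q H T A R Z W) : Pool.Agent.H885.FamN q H T A R Z W :=
  ⟨hH, h.degT, h.sizeT, h.degA, h.sizeA, h.comm, h.nil, h.sizeR, h.ode, h.inv, h.size, h.den⟩

/-- the solution in terms of the polynomials for the exponential function -/
theorem solution_eq {m n q : ℕ} {H : ℝ} {T : MvPolynomial (Fin m) ℤ}
    {A : Fin m → Fin n → Fin n → MvPolynomial (Fin m) ℤ} {R : Fin m → Matrix (Fin n) (Fin n) ℤ}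
    {Z W : Matrix (Fin n) (Fin n) (MvPowerSeries (Fin m) ℚ)} (h : Family q H T A R Z W) (a : Fin m → ℤ) (b : ℕ) :
    solution R Z a b = Pool.Agent.H885.eP (∑ i, R i) (Complex.log (b : ℝ)) * value Z a b := by
  unfold solution residue
  rw [Pool.Agent.H885.eP_nexp (Pool.Agent.H885.sumR_nil h.comm h.nil), Complex.ofReal_log (by positivity)]

theorem sym_inf {m n N : ℕ} {Z : Fin N → Matrix (Fin n) (Fin n) (MvPowerSeries (Fin m) ℚ)} {a : Fin N → Fin m → ℤ}
    {b : Fin N → ℕ} {β : ℕ} {X : Fin N → Matrix (Fin n) (Fin n) ℂ}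
    (h : Symmetry (fun j => if b j = β then onLine (a j) (Z j) else 1) (fun j => if b j = β then X j else 0)) :
    Pool.Agent.H885.InfT (Pool.Agent.H885.part b (fun j => Pool.Agent.H885.lineM (a j) (Z j)) β)
      (fun j => if b j = β then X j else 0) := by
  have h1 : Pool.Agent.H885.cent (Pool.Agent.H885.part b (fun j => Pool.Agent.H885.lineM (a j) (Z j)) β) =
      fun σ : Fin N × Fin n × Fin n => (if b σ.1 = β then onLine (a σ.1) (Z σ.1) else 1) σ.2.1 σ.2.2 := by
    funext σ
    unfold Pool.Agent.H885.cent Pool.Agent.H885.part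
    by_cases hb : b σ.1 = β
    · rw [if_pos hb, if_pos hb]
      rfl
    · rw [if_neg hb, if_neg hb, Matrix.one_apply, Matrix.one_apply]
      split_ifs
      · exact map_one _
      · exact map_zero _
  intro R hR
  rw [h1] at hR ⊢
  refine Eq.trans ?_ (h R hR)
  refine Finset.sum_congr rfl fun σ _ => ?_
  rw [Matrix.mul_apply]
  rfl

theorem small_cod {n r : ℕ} (hn : 0 < n) {B : Matrix (Fin n) (Fin n) ℂ} (h : Small r B) :
    CentreFree (Pool.Agent.Helper880_R3.lieB B) ∧ NoSmall r (Pool.Agent.Helper880_R3.lieB B) := by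
  rcases h with ⟨rfl, h⟩ | ⟨⟨h1, h2⟩, h3⟩ | ⟨h1, h2, h3, h4⟩
  · exact ⟨Pool.Agent.Helper880_R3.cf_sl hn, Pool.Agent.Helper880_R3.cod_sl h⟩
  · have hB := (Matrix.isUnit_iff_isUnit_det _).1 h1
    refine ⟨Pool.Agent.Helper880_R3.cf_form (ε := -1) hB (by ring) (by rw [h2, neg_one_smul]) ?_,
      Pool.Agent.Helper880_R3.cod_sp hB h2 (by omega) (by omega)⟩
    have h5 : (8 : ℂ) - 4 * -1 * n = ((8 + 4 * n : ℕ) : ℂ) := by
      push_cast
      ring
    rw [h5]
    exact_mod_cast (by omega : 8 + 4 * n ≠ 0)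
  · have hB := (Matrix.isUnit_iff_isUnit_det _).1 h1
    refine ⟨Pool.Agent.Helper880_R3.cf_form (ε := 1) hB (by ring) (by rw [h2, one_smul]) ?_,
      Pool.Agent.Helper880_R3.cod_so hB h2 h4⟩
    intro h5
    have h6 : (n : ℂ) = ((2 : ℕ) : ℂ) := by
      push_cast
      linear_combination (-1 / 4 : ℂ) * h5
    exact h3 (by exact_mod_cast h6)

theorem adm {n r : ℕ} (hn : 0 < n) {𝔤 : Submodule ℂ (Matrix (Fin n) (Fin n) ℂ)} (h : Admissible r 𝔤) :
    IsLieAlg 𝔤 ∧ CentreFree 𝔤 ∧ NoSmall r 𝔤 := by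
  rcases h with h | ⟨B, hB, h⟩
  · exact h
  · have h1 : 𝔤 = Pool.Agent.Helper880_R3.lieB B := Submodule.ext h
    rw [h1]
    exact ⟨Pool.Agent.Helper880_R3.lieB_lie B, small_cod hn hB⟩

/-- from stability to the consequences for classical monodromy groups -/
theorem good_of {n N D r₀ : ℕ} {C₀ : Matrix (Fin r₀) (Fin r₀) ℂ} {C : Fin N → Matrix (Fin n) (Fin n) ℂ}
    {𝔤 : Fin N → Submodule ℂ (Matrix (Fin n) (Fin n) ℂ)} {P : Fin N → Matrix (Fin n) (Fin n) ℂ}
    (h : ∀ K : Subfield ℂ, FiniteDimensional ℚ K → Module.finrank ℚ K ≤ D →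
      ∀ S : Set (Matrix (Fin r₀ ⊕ (Fin n × Fin N)) (Fin r₀ ⊕ (Fin n × Fin N)) ℂ), IsSubtorsor K S →
      total C₀ (fun j => C j * P j) ∈ S → ∀ X : Fin N → Matrix (Fin n) (Fin n) ℂ, (∀ j, X j ∈ 𝔤 j) → ∀ x ∈ S,
      total 1 (fun j => NormedSpace.exp (C j * X j * (C j)⁻¹)) * x ∈ S) : Good D C₀ C 𝔤 fun j => C j * P j := by
  intro K hK hKD S hS hmem
  have hst := h K hK hKD S hS hmem
  have hS' := Pool.Agent.Y123.ST.subT_iff.1 hS
  have hC : ∀ j, IsUnit (C j).det := fun j => by
    have h1 := (Pool.Agent.Helper880_R3.Tot_unit (hS'.isUnit _ hmem)).2 j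
    have h2 := (Matrix.isUnit_iff_isUnit_det _).1 h1
    rw [Matrix.det_mul] at h2
    exact isUnit_of_mul_isUnit_left h2
  have hgrp : ∀ B : Fin N → Matrix (Fin n) (Fin n) ℂ, (∀ j, Classical (B j)) →
      (∀ j X, IsInfinitesimal (B j) X → X ∈ 𝔤 j) →
      ∀ g : Fin N → (Matrix (Fin n) (Fin n) ℂ)ˣ, (∀ j, g j ∈ Pool.Agent.Y123.GN.GB (C j * B j * (C j)ᵀ)) →
      ∀ x ∈ S, total 1 (fun j => (g j : Matrix (Fin n) (Fin n) ℂ)) * x ∈ S := fun B hB hB𝔤 g hg x hx =>
    Pool.Agent.H885.grp_stabC hS' hC (fun Y hY => hst Y fun j => hB𝔤 j _ (hY j)) hB g hg hx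
  refine ⟨hst, ?_, ?_⟩
  · intro B hB hB𝔤 Q μ x₀ X Y hX hY hd hx
    exact Pool.Agent.H885.fibre_fullC hS' (hgrp B hB hB𝔤) hX.1 hx hX.2 hY.2 fun j =>
      (hd j).imp (fun h => Pool.Agent.Helper880_R3.Spf_conj (hC j) h) id
  · intro hr hC₀ B hB hB𝔤 Q w m δ hSF
    have hKalg : ∀ x ∈ K, IsAlgebraic ℚ x := by
      intro x hx
      have : NumberField K := { to_charZero := inferInstance, to_finiteDimensional := hK }
      have h6 : IsAlgebraic ℚ (⟨x, hx⟩ : K) := Algebra.IsAlgebraic.isAlgebraic _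
      exact h6.algebraMap (A := ℂ)
    rw [hC₀] at hmem
    exact Pool.Agent.H885.absoluteC hKalg hr hS' hmem (hgrp B hB hB𝔤) hSF

/-- the data which show that a tuple is exceptional -/
theorem bad_data {m n N q E₀ D r₀ r : ℕ} (hn : 0 < n) {C₀ : Matrix (Fin r₀) (Fin r₀) ℂ}
    {C : Fin N → Matrix (Fin n) (Fin n) ℂ} {H : ℝ} (hH : 1 ≤ H) {h : ℕ}
    (hbase : ∀ (H : ℝ) (T : MvPolynomial (Fin m) ℤ) (A : Fin m → Fin n → Fin n → MvPolynomial (Fin m) ℤ)
      (R : Fin m → Matrix (Fin n) (Fin n) ℤ) (Z W : Matrix (Fin n) (Fin n) (MvPowerSeries (Fin m) ℚ)),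
      Pool.Agent.H885.FamN q H T A R Z W → ∀ (h : ℕ) (a : Fin m → ℤ), (∀ i, |a i| ≤ h) →
        Pool.Agent.H885.line a (Pool.Agent.H885.toMv T) ≠ 0 →
        ∃ (T' : Polynomial ℤ) (B' : Fin n → Fin n → Polynomial ℤ), T' ≠ 0 ∧
          Pool.Agent.H885.SysN q ((2 * H * ((h : ℝ) + 2)) ^ E₀) T' B' (∑ i, R i) (Pool.Agent.H885.lineM a Z)
            (Pool.Agent.H885.lineM a W))
    {b : Fin N → ℕ} {T : Fin N → MvPolynomial (Fin m) ℤ} {A : Fin N → Fin m → Fin n → Fin n → MvPolynomial (Fin m) ℤ}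
    {R : Fin N → Fin m → Matrix (Fin n) (Fin n) ℤ} {Z W : Fin N → Matrix (Fin n) (Fin n) (MvPowerSeries (Fin m) ℚ)}
    (hF : ∀ j, Family q H (T j) (A j) (R j) (Z j) (W j))
    {a : Fin N → Fin m → ℤ} (ha : ∀ j i, |a j i| ≤ h) (hTa : ∀ j, restrict (a j) (toQ (T j)) ≠ 0)
    {𝔤 : Fin N → Submodule ℂ (Matrix (Fin n) (Fin n) ℂ)} (h𝔤 : ∀ j, Admissible r (𝔤 j))
    (hR : ∀ j, ∀ X ∈ 𝔤 j, residue (R j) * X - X * residue (R j) ∈ 𝔤 j)
    (hI : ∀ X : Fin N → Matrix (Fin n) (Fin n) ℂ, (∀ j, X j ∈ 𝔤 j) → ∀ β : ℕ,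
      Symmetry (fun j => if b j = β then onLine (a j) (Z j) else 1) (fun j => if b j = β then X j else 0))
    (hbad : ¬ Good D C₀ C 𝔤 fun j => C j * solution (R j) (Z j) (a j) (b j)) :
    ∃ (T' : Fin N → Polynomial ℤ) (B' : Fin N → Fin n → Fin n → Polynomial ℤ) (R' : Fin N → Matrix (Fin n) (Fin n) ℤ)
      (Z' W' : Fin N → Matrix (Fin n) (Fin n) (PowerSeries ℚ)) (𝔤 : Fin N → Submodule ℂ (Matrix (Fin n) (Fin n) ℂ))
      (K : Subfield ℂ) (S : Set (Matrix (Fin r₀ ⊕ (Fin n × Fin N)) (Fin r₀ ⊕ (Fin n × Fin N)) ℂ)),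
      (∀ j, Pool.Agent.H885.SysN q ((2 * H * ((h : ℝ) + 2)) ^ E₀) (T' j) (B' j) (R' j) (Z' j) (W' j)) ∧ (∀ j, T' j ≠ 0) ∧
      (∀ j a b, Pool.Agent.Y120.GH.cx (Z' j a b) ∈ Pool.Agent.Y120.GH.Cw (2 ^ m * (H * ((h : ℝ) + 2)))) ∧
      ((∀ j, IsLieAlg (𝔤 j)) ∧ (∀ j, CentreFree (𝔤 j)) ∧ ∀ j, NoSmall r (𝔤 j)) ∧
      (∀ j, ∀ Y ∈ 𝔤 j, (R' j).map (Int.castRingHom ℂ) * Y - Y * (R' j).map (Int.castRingHom ℂ) ∈ 𝔤 j) ∧
      (∀ X : Fin N → Matrix (Fin n) (Fin n) ℂ, (∀ j, X j ∈ 𝔤 j) → ∀ β,
        Pool.Agent.H885.InfT (Pool.Agent.H885.part b Z' β) (fun j => if b j = β then X j else 0)) ∧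
      (FiniteDimensional ℚ K ∧ Module.finrank ℚ K ≤ D) ∧ IsSubtorsor K S ∧
      total C₀ (fun j => C j * Pool.Agent.H885.eP (R' j) (Complex.log (b j : ℝ)) * Pool.Agent.Y118.HV.Hv (Z' j) (b j)) ∈ S ∧
      ¬ ∀ X : Fin N → Matrix (Fin n) (Fin n) ℂ, (∀ j, X j ∈ 𝔤 j) → ∀ x ∈ S,
        total 1 (fun j => NormedSpace.exp (C j * X j * (C j)⁻¹)) * x ∈ S := by
  classical
  have h1 : ∀ j, ∃ (T' : Polynomial ℤ) (B' : Fin n → Fin n → Polynomial ℤ), T' ≠ 0 ∧
      Pool.Agent.H885.SysN q ((2 * H * ((h : ℝ) + 2)) ^ E₀) T' B' (∑ i, R j i)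
        (Pool.Agent.H885.lineM (a j) (Z j)) (Pool.Agent.H885.lineM (a j) (W j)) := fun j =>
    hbase H (T j) (A j) (R j) (Z j) (W j) (base_of hH (hF j)) h (a j) (ha j) (hTa j)
  choose T' B' hT' hS' using h1
  have h2 : ¬ ∀ K : Subfield ℂ, FiniteDimensional ℚ K → Module.finrank ℚ K ≤ D →
      ∀ S : Set (Matrix (Fin r₀ ⊕ (Fin n × Fin N)) (Fin r₀ ⊕ (Fin n × Fin N)) ℂ), IsSubtorsor K S →
      total C₀ (fun j => C j * solution (R j) (Z j) (a j) (b j)) ∈ S →
      ∀ X : Fin N → Matrix (Fin n) (Fin n) ℂ, (∀ j, X j ∈ 𝔤 j) →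
      ∀ x ∈ S, total 1 (fun j => NormedSpace.exp (C j * X j * (C j)⁻¹)) * x ∈ S := fun h3 => hbad (good_of h3)
  simp only [not_forall] at h2
  obtain ⟨K, hK, hKD, S, hS, hmem, X, hX, x, hx, hxS⟩ := h2
  refine ⟨T', B', fun j => ∑ i, R j i, fun j => Pool.Agent.H885.lineM (a j) (Z j), fun j => Pool.Agent.H885.lineM (a j) (W j),
    𝔤, K, S, hS', hT', fun j a' b' => ?_, ⟨fun j => (adm hn (h𝔤 j)).1, fun j => (adm hn (h𝔤 j)).2.1, fun j => (adm hn (h𝔤 j)).2.2⟩,
    hR, fun X hX β => sym_inf (hI X hX β), ⟨hK, hKD⟩, hS, ?_, fun h3 => hxS (h3 X hX x hx)⟩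
  · exact Pool.Agent.Y120.GH.cx_mem (by positivity) (Pool.Agent.H885.line_size hH ((hF j).size a' b') (ha j))
  · have h3 : (fun j => C j * solution (R j) (Z j) (a j) (b j)) = fun j =>
        C j * Pool.Agent.H885.eP (∑ i, R j i) (Complex.log (b j : ℝ)) *
          Pool.Agent.Y118.HV.Hv (Pool.Agent.H885.lineM (a j) (Z j)) (b j) := by
      funext j
      rw [solution_eq (hF j), ← Matrix.mul_assoc]
      rfl
    rw [h3] at hmem
    exact hmem

/-- **The theorem.** -/
theorem result (m n N M q D r₀ s ℓ e r : ℕ) (hn : 0 < n) (hℓ : ℓ ≤ r) :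
    ∃ E : ℕ, ∀ (β : Fin s → ℂ) (H : ℝ) (h w b₀ : ℕ), 1 ≤ H → (2 * H * ((h : ℝ) + w + 2)) ^ E ≤ (b₀ : ℝ) →
    ∃ F : Finset ℕ, F.card ≤ M * ((s + 1) / (r + 1 - ℓ)) ∧
    ∀ b : Fin N → ℕ, Allowed m M H h w b₀ b → (∀ j, ∀ c ∈ F, Far m H h (b j) c) →
    ∀ (C₀ : Matrix (Fin r₀) (Fin r₀) ℂ) (C : Fin N → Matrix (Fin n) (Fin n) ℂ), FewPeriods ℓ e β C₀ C →
    ∀ (T : Fin N → MvPolynomial (Fin m) ℤ) (A : Fin N → Fin m → Fin n → Fin n → MvPolynomial (Fin m) ℤ)
      (R : Fin N → Fin m → Matrix (Fin n) (Fin n) ℤ)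
      (Z W : Fin N → Matrix (Fin n) (Fin n) (MvPowerSeries (Fin m) ℚ)), (∀ j, Family q H (T j) (A j) (R j) (Z j) (W j)) →
    ∀ a : Fin N → Fin m → ℤ, (∀ j i, |a j i| ≤ h) → (∀ j, restrict (a j) (toQ (T j)) ≠ 0) →
    ∀ 𝔤 : Fin N → Submodule ℂ (Matrix (Fin n) (Fin n) ℂ), (∀ j, Admissible r (𝔤 j)) →
      (∀ j, ∀ X ∈ 𝔤 j, residue (R j) * X - X * residue (R j) ∈ 𝔤 j) →
      (∀ X : Fin N → Matrix (Fin n) (Fin n) ℂ, (∀ j, X j ∈ 𝔤 j) → ∀ β : ℕ,
        Symmetry (fun j => if b j = β then onLine (a j) (Z j) else 1) (fun j => if b j = β then X j else 0)) →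
      Good D C₀ C 𝔤 fun j => C j * solution (R j) (Z j) (a j) (b j) := by
  classical
  obtain ⟨E₀, hbase⟩ := Pool.Agent.H885.base_sysN m n q
  set L : ℕ := (s + 1) / (r + 1 - ℓ) + 1 with hL
  have hLr : s + 1 + L * ℓ < L * (r + 1) := by
    have h1 : s + 1 < (r + 1 - ℓ) * L := by
      rw [hL]
      exact Nat.lt_mul_div_succ (s + 1) (by omega)
    have h2 : L * (r + 1) = (r + 1 - ℓ) * L + L * ℓ := by
      have h3 : r + 1 = (r + 1 - ℓ) + ℓ := by omega
      calc L * (r + 1) = L * ((r + 1 - ℓ) + ℓ) := by rw [← h3]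
        _ = _ := by ring
    omega
  obtain ⟨E, hE⟩ := Pool.Agent.H885.uniformW n N q D r₀ s e r ℓ L hn hLr
  obtain ⟨e₁, he₁⟩ := Pool.Agent.H885.pow_absorb (c := (2 : ℝ) * (1 + 2 ^ m)) (by
    have : (1 : ℝ) ≤ 2 ^ m := one_le_pow₀ (by norm_num)
    linarith)
  refine ⟨(e₁ + E₀ + 1) * E, fun βs H h w b₀ hH hbig => ?_⟩
  set x : ℝ := 2 * H * ((h : ℝ) + w + 2) with hx
  have hh0 : (0 : ℝ) ≤ h := by positivity
  have hw0 : (0 : ℝ) ≤ w := by positivity
  have hx1 : (h : ℝ) + w + 2 ≤ x := by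
    rw [hx]
    nlinarith
  have hx2 : 2 ≤ x := by linarith
  have hx3 : H * ((h : ℝ) + 2) ≤ x := by
    rw [hx]
    nlinarith
  have hx4 : 2 * H * ((h : ℝ) + 2) ≤ x := by
    rw [hx]
    nlinarith
  have hbig' : (2 * (2 * H * ((h : ℝ) + 2)) ^ E₀ * ((w : ℝ) + 2 ^ m * (H * ((h : ℝ) + 2)) + 2)) ^ E ≤ (b₀ : ℝ) := by
    refine le_trans ?_ hbig
    rw [pow_mul]
    refine pow_le_pow_left₀ (by positivity) ?_ E
    have h1 : (2 * H * ((h : ℝ) + 2)) ^ E₀ ≤ x ^ E₀ := pow_le_pow_left₀ (by positivity) hx4 _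
    have h2 : (w : ℝ) + 2 ^ m * (H * ((h : ℝ) + 2)) + 2 ≤ (1 + 2 ^ m) * x := by
      have h3 : (2 : ℝ) ^ m * (H * ((h : ℝ) + 2)) ≤ 2 ^ m * x := mul_le_mul_of_nonneg_left hx3 (by positivity)
      linarith
    calc 2 * (2 * H * ((h : ℝ) + 2)) ^ E₀ * ((w : ℝ) + 2 ^ m * (H * ((h : ℝ) + 2)) + 2) ≤
        2 * x ^ E₀ * ((1 + 2 ^ m) * x) := by
          refine mul_le_mul (by linarith) h2 (by positivity) (by positivity)
      _ = (2 * (1 + 2 ^ m)) * (x ^ E₀ * x) := by ring
      _ ≤ x ^ e₁ * (x ^ E₀ * x) := mul_le_mul_of_nonneg_right (he₁ x hx2) (by positivity)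
      _ = x ^ (e₁ + E₀ + 1) := by ring
  have hFar : ∀ b c : ℕ, Far m H h b c → 2 * (2 ^ m * (H * ((h : ℝ) + 2))) < |(b : ℝ) - c| := by
    intro b c hbc
    refine lt_of_eq_of_lt ?_ hbc
    ring
  have hFsym : ∀ b c : ℕ, Far m H h b c → Far m H h c b := by
    intro b c hbc
    unfold Far at hbc ⊢
    rw [abs_sub_comm]
    exact hbc
  -- the exceptional tuples
  set Bad : (Fin N → ℕ) → Prop := fun b => Allowed m M H h w b₀ b ∧
    ∃ (C₀ : Matrix (Fin r₀) (Fin r₀) ℂ) (C : Fin N → Matrix (Fin n) (Fin n) ℂ), FewPeriods ℓ e βs C₀ C ∧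
    ∃ (T' : Fin N → Polynomial ℤ) (B' : Fin N → Fin n → Fin n → Polynomial ℤ) (R' : Fin N → Matrix (Fin n) (Fin n) ℤ)
      (Z' W' : Fin N → Matrix (Fin n) (Fin n) (PowerSeries ℚ)) (𝔤 : Fin N → Submodule ℂ (Matrix (Fin n) (Fin n) ℂ))
      (K : Subfield ℂ) (S : Set (Matrix (Fin r₀ ⊕ (Fin n × Fin N)) (Fin r₀ ⊕ (Fin n × Fin N)) ℂ)),
      (∀ j, Pool.Agent.H885.SysN q ((2 * H * ((h : ℝ) + 2)) ^ E₀) (T' j) (B' j) (R' j) (Z' j) (W' j)) ∧ (∀ j, T' j ≠ 0) ∧
      (∀ j a b, Pool.Agent.Y120.GH.cx (Z' j a b) ∈ Pool.Agent.Y120.GH.Cw (2 ^ m * (H * ((h : ℝ) + 2)))) ∧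
      ((∀ j, IsLieAlg (𝔤 j)) ∧ (∀ j, CentreFree (𝔤 j)) ∧ ∀ j, NoSmall r (𝔤 j)) ∧
      (∀ j, ∀ Y ∈ 𝔤 j, (R' j).map (Int.castRingHom ℂ) * Y - Y * (R' j).map (Int.castRingHom ℂ) ∈ 𝔤 j) ∧
      (∀ X : Fin N → Matrix (Fin n) (Fin n) ℂ, (∀ j, X j ∈ 𝔤 j) → ∀ β,
        Pool.Agent.H885.InfT (Pool.Agent.H885.part b Z' β) (fun j => if b j = β then X j else 0)) ∧
      (FiniteDimensional ℚ K ∧ Module.finrank ℚ K ≤ D) ∧ IsSubtorsor K S ∧
      total C₀ (fun j => C j * Pool.Agent.H885.eP (R' j) (Complex.log (b j : ℝ)) * Pool.Agent.Y118.HV.Hv (Z' j) (b j)) ∈ S ∧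
      ¬ ∀ X : Fin N → Matrix (Fin n) (Fin n) ℂ, (∀ j, X j ∈ 𝔤 j) → ∀ x ∈ S,
        total 1 (fun j => NormedSpace.exp (C j * X j * (C j)⁻¹)) * x ∈ S with hBad
  set P : ℕ → Prop := fun p => ∃ β : Fin p → Fin N → ℕ, (∀ l, Bad (β l)) ∧
    ∀ l l', l ≠ l' → ∀ i j, Far m H h (β l i) (β l' j) with hP
  have hPL : ¬ P L := by
    rintro ⟨β, hβ, hsep⟩
    have h1 := fun l => (hβ l).2
    choose C₀ C hfew T' B' R' Z' W' 𝔤 K S hS hT hmem h𝔤 hR' hI hK hS' hmS hst using h1
    choose γ κ hκ hf₀ hf using hfew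
    obtain ⟨l, hl⟩ := hE ⟨βs, γ, κ, C₀, C, R', (2 * H * ((h : ℝ) + 2)) ^ E₀, T', B', Z', W', 2 ^ m * (H * ((h : ℝ) + 2)), w, b₀,
        β, 𝔤, K, S⟩
      ⟨hκ, hf₀, hf, one_le_pow₀ (by nlinarith), hS, hT, by positivity, hmem, fun l j => (hβ l).1.1 j, fun l j l' j' hne => by
        by_cases hll : l = l'
        · subst hll
          rcases (hβ l).1.2.1 j j' with h2 | h2
          · exact absurd ⟨rfl, h2⟩ hne
          · exact hFar _ _ h2
        · exact hFar _ _ (hsep l l' hll j j'), hbig', fun l j => (h𝔤 l).1 j, fun l j => (h𝔤 l).2.1 j,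
        fun l j => (h𝔤 l).2.2 j, fun l j => hR' l j, fun l => hI l, fun l => (hK l).1, fun l => (hK l).2,
        fun l => Pool.Agent.Y123.ST.subT_iff.1 (hS' l), hmS⟩
    exact hst l hl
  have hP0 : P 0 := ⟨fun l => l.elim0, fun l => l.elim0, fun l => l.elim0⟩
  obtain ⟨p, hp, hPp, hPp1⟩ : ∃ p, p < L ∧ P p ∧ ¬ P (p + 1) := by
    by_contra hcon
    push Not at hcon
    have h1 : ∀ p, p ≤ L → P p := by
      intro p
      induction p with
      | zero => exact fun _ => hP0
      | succ p ih => exact fun hp => hcon p (by omega) (ih (by omega))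
    exact hPL (h1 L le_rfl)
  obtain ⟨β, hβ, hsep⟩ := hPp
  refine ⟨Finset.univ.biUnion fun l => Finset.univ.image (β l), ?_, ?_⟩
  · refine Finset.card_biUnion_le.trans ?_
    refine (Finset.sum_le_card_nsmul _ _ M fun l _ => (hβ l).1.2.2).trans ?_
    rw [Finset.card_univ, Fintype.card_fin, smul_eq_mul, mul_comm]
    exact Nat.mul_le_mul_left _ (by omega)
  · intro b hb hbF C₀ C hfew T A R Z W hF a ha hTa 𝔤 h𝔤 hR hI
    by_contra hbad
    apply hPp1
    have hBb : Bad b := ⟨hb, C₀, C, hfew, bad_data hn hH hbase hF ha hTa h𝔤 hR hI hbad⟩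
    refine ⟨Fin.cons b β, fun l => ?_, fun l l' hll i j => ?_⟩
    · refine Fin.cases ?_ (fun l => ?_) l
      · exact hBb
      · exact hβ l
    · have hin : ∀ l j, β l j ∈ Finset.univ.biUnion fun l => Finset.univ.image (β l) := fun l j =>
        Finset.mem_biUnion.2 ⟨l, Finset.mem_univ _, Finset.mem_image_of_mem _ (Finset.mem_univ _)⟩
      rcases Fin.eq_zero_or_eq_succ l with rfl | ⟨l, rfl⟩ <;> rcases Fin.eq_zero_or_eq_succ l' with rfl | ⟨l', rfl⟩
      · exact absurd rfl hll
      · rw [Fin.cons_zero, Fin.cons_succ]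
        exact hbF i _ (hin l' j)
      · rw [Fin.cons_zero, Fin.cons_succ]
        exact hFsym _ _ (hbF j _ (hin l i))
      · rw [Fin.cons_succ, Fin.cons_succ]
        exact hsep l l' (fun h1 => hll (by rw [h1])) i j

end Pool.Agent.Results.MP_cbf1af_ag.FewExceptionalNearDegenerate
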