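import Pool.Agent.H936.X.Tens
import Pool.Agent.H936.Y.Fin

/-!
# The classes of the period conjecture for the curves `y² = f(x) (x - c / b)`, uniformly in `f`, without exceptions

Let `f ∈ ℤ[x]` be monic of degree `2 g ≥ 4` with `2 g` distinct real roots which are not zero. We consider the curves

  `C_t : y² = f(x) (x - t)` of genus `g`, `t` a rational number, and the curve `C_0 : y² = x f(x)`.

The problem page lists that for each bound `δ` the periods of `C_t` satisfy no unexpected relation of degree `≤ δ` for `t ∈ ℕ`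
in a set of density one. Here we consider the parameters `t = c / b` near `0` (large denominators), **all** of them, **all even
polynomials** `f` at the same time, and tensors of **unbounded degree**. Instead of the assumption that `f` is even one can
assume that the Jacobian of `C_0` is **special** (definition `Special`: for example, it has an endomorphism which is not an
integer; if `f` is even there is the automorphism `(x, y) ↦ (-x, i y)` of order four of `C_0`).

**Theorem.** For all `g ≥ 2`, `N`, `D`, `r`, `e` there is `E` such that the following holds for all integers `H ≥ 2`, `h`, `w` and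
`b₀ ≥ (H + h + w)^E`, **all** `f_1, …, f_N` as above with coefficients of absolute value at most `H` and with `f_j` even or
the Jacobian of `y² = x f_j(x)` special, **all** integers `c_j ≠ 0` with `|c_j| ≤ h`, **all** `b_j` in `[b₀, b₀ + w]` with
`|b_i - b_j| ≥ (H + h)^E` for `i ≠ j`, **all** `M_0` with period matrix `C₀` of size `r` with one of the two properties below, and
**all** number fields `K` with `[K : ℚ] ≤ D`. The roots of `f_j(x) (x - c_j / b_j)` are real and distinct; let `M_j = h^1(C_j)`,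
`C_j : y² = f_j(x) (x - c_j / b_j)`, with the period matrix `P_j`, and let `c = C₀ ⊕ P_1 ⊕ … ⊕ P_N`.

1. **Classes** on all powers: if a tensor with coefficients in `K` of `(M_0 ⊕ M_0^∨)^⊗k ⊗ (M_1 ⊕ … ⊕ M_N)^⊗l` is mapped to a
   multiple of a rational tensor on the Betti side, then this is a linear combination of products of tensors of
   `(M_0 ⊕ M_0^∨)^⊗k` and polarisations of the `M_j`; here `k` and `l` are arbitrary, `E` does not depend on them. For `k = 0`
   the de Rham-Betti classes on **all** products of powers of the curves `C_j` are algebraic: they are polynomials in the classes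
   of divisors, as the period conjecture predicts.
2. All `K`-subtorsors `S` with `c ∈ S` and with a group which is defined over `ℚ` are stable under `1 × Sp × … × Sp`.
3. If `C₀ = 2 π i` (`M_0 = ℚ(-1)^r`) then `S` is equal to the torsor `T_pol` of all isomorphisms which respect the
   polarisations as soon as it is contained in it: the smallest subtorsor with rational group through the periods of
   `M_1 ⊕ … ⊕ M_N` is the expected torsor of dimension `1 + N g (2 g + 1)`.
4. No Jacobian of a `C_j` is special, and there are no homomorphisms between the Jacobians of `C_i` and `C_j`, `i ≠ j`, over fields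
   of degree at most `D`.

The object `M_0` has the property `NoLargeFactor` if there is a subtorsor over a field of degree at most `D` which contains `C₀`,
has a rational group, and the Lie algebra of this group has a chain of ideals the factors of which are commutative or
of dimension smaller than `g (2 g + 1) = dim Sp`. This contains all iterated extensions of objects of ranks `ρ` with
`ρ² < g (2 g + 1)` (`noLargeFactor_of_blocks` below), so all mixed Tate motives. The second property, `FewPeriods`, is that up to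
a factor all entries of `C₀` are algebraic over a field generated by `2 g - 2` numbers.

**Comparison.** A theorem about all `t = 1 / b` which are close to `0` was known for one polynomial `f`, with a constant which
depends on `f`, if the ratios of the periods of `C_0` generate a field of transcendence degree at most `2 g - 2`
(`AllLargeParameters` of an earlier run, for torsors). For even `f` this is known only if the Jacobian of `C_0` is very special
(complex multiplication, powers of elliptic curves and so on); here there is no condition on transcendence. The abstract theorem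
`NearDifferentSpecialVarieties` of this run assumes that the families are given by G-functions of controlled size and that they have
big monodromy. Here this is proved for the families `y² = f(x) (x - t)`, uniformly in `f`.

**Proof** (`Pool/Agent/H936/Y`, `X`, `V`). (a) The fundamental solution `Y` of the Picard-Fuchs system of `y² = f(x) (x - t)`
at `t = 0` is made of Hadamard products of algebraic functions with `(1 - t)^(-1/2)` (`Pool.Agent.Y655.HG`); we show that the sizes
and denominators of its coefficients, and of the inverse matrix, are at most `H^(e (k + 1))` with `e = e(g)` for all `f` of height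
at most `H` (`Uni`, `UniP`, `UniB`, `UniG`). (b) The period matrix at `t` is `P(0) Y(t)` for `|t| ≤ H^(-e)`: it is analytic in the
gap between the roots, and these have absolute values at least `1 / (2 g H)` (`Rad`). (c) The symplectic Lie algebra
consists of infinitesimal symmetries of `Y` (`Inf`): by `Pool.Agent.Y118.HP.func_inv` (monodromy) all relations between the
functions `P(t)` are invariant under `Sp`. (d) If `f` is even, then `C_0` has an automorphism of order four, which acts on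
the periods by `∫_(a_l)^(a_(l+1)) x^j dx / y ↦ (-1)^j ∫_(-a_(l+1))^(-a_l) x^j dx / y` (`Ctr`). (e) The rest is the theorem on tuples of
families near different special abelian varieties (`Pool/Agent/H936/X`: ultraproducts, linear independence of values of G-functions
at several points, factorisations of `Sp`, the theorem of Schneider-Lang).

Nothing is assumed about periods: `AbVar` is the description of an abelian variety over `ℚ̄` by theta functions
(`Pool/Agent/Y102/AVDefs.lean` explains why every abelian variety has it), and the assumption `Presents` says that the Jacobians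
of the curves are given in this way, with the period matrices of the forms `x^j dx / y`, `j < 2 g`; this is true for all the
curves which appear here, by the classical theory.
-/

set_option autoImplicit false

open Filter
open scoped Matrix

namespace Pool.Agent.Results.MP_cbf1af_ag.NearEvenHyperellipticCurves

open Pool.Agent.Y102 (AbVar riemannForm)

/-! ### Hyperelliptic curves -/

section curves

/-- `e_0 < e_1 < … < e_n` are the roots of `F`, `F = ∏ (x - e_i)`: the finite branch points of the curve `y² = F(x)` -/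
def BranchPoints {n : ℕ} (F : Polynomial ℝ) (e : Fin n → ℝ) : Prop :=
  StrictMono e ∧ F = ∏ i, (Polynomial.X - Polynomial.C (e i))

/-- the period `2 ∫ x^j dx / y` of the curve `y² = ∏ (x - e_i)`, the integral over the segment between `e_l` and `e_(l+1)` -/
noncomputable def period {n : ℕ} (e : Fin (n + 1) → ℝ) (l j : Fin n) : ℂ :=
  2 * ∫ x in (e l.castSucc)..(e l.succ), (x : ℂ) ^ (j : ℕ) / (((∏ i, (x - e i) : ℝ) : ℂ) ^ (1 / 2 : ℂ))

/-- the period matrix of the curve `y² = ∏ (x - e_i)`, `0 ≤ i ≤ n = 2 g`: the rows are the cycles over the segments between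
the branch points, the columns are the forms `x^j dx / y`, `j < n`, a basis of `H^1_dR` -/
noncomputable def periodMatrix {n : ℕ} (e : Fin (n + 1) → ℝ) : Matrix (Fin n) (Fin n) ℂ := Matrix.of (period e)

/-- the intersection form of the cycles, up to a factor: `2 (-1)^r` at `(r, s)` with `|r - s| = 1` -/
def polB (n : ℕ) : Matrix (Fin n) (Fin n) ℚ :=
  Matrix.of fun r s => if (r : ℕ) = s + 1 ∨ (s : ℕ) = r + 1 then 2 * (-1) ^ (r : ℕ) else 0

end curves

/-! ### Abelian varieties -/

/-- rational matrices as complex matrices -/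
def toC {n : ℕ} (M : Matrix (Fin n) (Fin n) ℚ) : Matrix (Fin n) (Fin n) ℂ := M.map fun x : ℚ => (x : ℂ)

section abelian
variable {g : ℕ} (A : AbVar g)

/-- The matrix of the periods of `A`: the integrals over the basis of the lattice of the invariant differentials `d z k`
and of the differentials of the second kind `d (∂ k (log θ 0))`, a basis of `H^1_dR (A / ℚ̄)`. -/
noncomputable def periods : Matrix (Fin (2 * g)) (Fin g ⊕ Fin g) ℂ := Matrix.of fun a i => A.dR i (Pi.single a 1)

/-- `P` is the matrix of the comparison isomorphism `H^1_dR → H^1_B` of `A` for some basis `R` of the rational homology, in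
which the Riemann form has the matrix `H` up to a rational factor, and some basis of the de Rham cohomology over `ℚ̄`
(given by `T`). -/
def Presents (H : Matrix (Fin (2 * g)) (Fin (2 * g)) ℚ) (P : Matrix (Fin (2 * g)) (Fin (2 * g)) ℂ) : Prop :=
  ∃ (R : Matrix (Fin (2 * g)) (Fin (2 * g)) ℚ) (T : Matrix (Fin g ⊕ Fin g) (Fin (2 * g)) ℂ) (q : ℚ),
    IsUnit R ∧ IsUnit P ∧ (∀ i j, IsAlgebraic ℚ (T i j)) ∧ q ≠ 0 ∧ P = toC R * periods A * T ∧
    ∀ a b, ∑ c, ∑ d, (R a c : ℂ) * riemannForm A.lam A.η (A.lam c) (A.lam d) * (R b d : ℂ) = (q : ℂ) * (H a b : ℂ)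

end abelian

/-! ### Torsors -/

/-- `S` is (the set of complex points of) a `K`-subtorsor of `GL_B = Iso (M_dR, M_B)`: it is closed under `x y⁻¹ z`, and
it is defined in `GL_B` by polynomials with coefficients in `K`. -/
def IsSubtorsor (K : Subfield ℂ) {B : Type} [Fintype B] [DecidableEq B] (S : Set (Matrix B B ℂ)) : Prop :=
  (∀ x ∈ S, ∀ y ∈ S, ∀ z ∈ S, x * y⁻¹ * z ∈ S) ∧ ∃ I : Set (MvPolynomial (B × B) K), ∀ x : Matrix B B ℂ, x ∈ S ↔
    IsUnit x ∧ ∀ p ∈ I, MvPolynomial.eval (fun b => x b.1 b.2) (MvPolynomial.map (algebraMap K ℂ) p) = 0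

/-- The group of the torsor `S` on the Betti side, the set of the `x y⁻¹` with `x`, `y` in `S`, is defined over `ℚ`: it is
stable under all automorphisms of the field of complex numbers. -/
def RationalGroup {B : Type} [Fintype B] [DecidableEq B] (S : Set (Matrix B B ℂ)) : Prop :=
  ∀ σ : ℂ ≃+* ℂ, ∀ x ∈ S, ∀ y ∈ S, ∃ x' ∈ S, ∃ y' ∈ S, (x * y⁻¹).map σ = x' * y'⁻¹

/-! ### Special abelian varieties -/

section centre
variable {n : ℕ}

/-- The abelian variety is special over a field `K` of degree at most `D`: it has an endomorphism, given by a rational matrix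
`α` on `H_1`, which is not a rational number and is defined over `K` on the de Rham side; or there is a `K`-subtorsor `S` of the
torsor of all isomorphisms from `H^1_dR` to `H^1_B` which contains the matrix `C` of the periods, whose group is defined over
`ℚ`, and which is not stable under the symplectic group of `H`. -/
def Special (D : ℕ) (H : Matrix (Fin n) (Fin n) ℚ) (C : Matrix (Fin n) (Fin n) ℂ) : Prop :=
  ∃ K : Subfield ℂ, FiniteDimensional ℚ K ∧ Module.finrank ℚ K ≤ D ∧
    ((∃ α : Matrix (Fin n) (Fin n) ℚ, (∀ c : ℚ, α ≠ c • 1) ∧ ∀ i j, (C⁻¹ * toC α * C) i j ∈ K) ∨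
    ∃ S : Set (Matrix (Fin n) (Fin n) ℂ), IsSubtorsor K S ∧ RationalGroup S ∧ C ∈ S ∧
      ∃ γ : Matrix (Fin n) (Fin n) ℂ, γ * toC H * γᵀ = toC H ∧ ∃ x ∈ S, γ * x ∉ S)

/-- `y` satisfies an equation `P(b, y) = 0` where `P` has rational coefficients and total degree at most `e` and `P(b, Y)` is
not the zero polynomial -/
def AlgebraicOver (e : ℕ) {ι : Type} (b : ι → ℂ) (y : ℂ) : Prop :=
  ∃ P : MvPolynomial (Option ι) ℚ, P.totalDegree ≤ e ∧ MvPolynomial.aeval (fun o : Option ι => o.elim y b) P = 0 ∧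
    ∃ y' : ℂ, MvPolynomial.aeval (fun o : Option ι => o.elim y' b) P ≠ 0

/-- Numbers which are algebraic over the field generated by the `b_i` have this property for some `e`. -/
theorem algebraicOver_of_isAlgebraic {ι : Type} {b : ι → ℂ} {y : ℂ}
    (h : IsAlgebraic (IntermediateField.adjoin ℚ (Set.range b)) y) : ∃ e, AlgebraicOver e b y :=
  Pool.Agent.H936.V.ag_of_alg h

end centre

/-! ### The motive `M_0` -/

/-- `X` is in the Lie algebra of the group of the torsor `S` on the Betti side: `S` is stable under all `exp (s X)` -/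
def InLie {B : Type} [Fintype B] [DecidableEq B] (S : Set (Matrix B B ℂ)) (X : Matrix B B ℂ) : Prop :=
  ∀ s : ℂ, ∀ x ∈ S, NormedSpace.exp (s • X) * x ∈ S

/-- First condition on `M_0`: a `K`-subtorsor `S` of the torsor of all isomorphisms, `[K : ℚ] ≤ D`, contains the period matrix
`C₀`, its group is defined over `ℚ`, and the Lie algebra of this group has a chain of ideals `𝔞_0 ⊇ 𝔞_1 ⊇ … ⊇ 𝔞_t = 0`
the factors of which are commutative or have dimensions smaller than `g (2 g + 1)`, the dimension of `Sp`. -/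
def NoLargeFactor (g D : ℕ) {r : ℕ} (C₀ : Matrix (Fin r) (Fin r) ℂ) : Prop :=
  ∃ (K : Subfield ℂ) (S : Set (Matrix (Fin r) (Fin r) ℂ)), FiniteDimensional ℚ K ∧ Module.finrank ℚ K ≤ D ∧
    IsSubtorsor K S ∧ RationalGroup S ∧ C₀ ∈ S ∧
    ∃ (t : ℕ) (𝔞 : ℕ → Submodule ℂ (Matrix (Fin r) (Fin r) ℂ)), (∀ X, InLie S X → X ∈ 𝔞 0) ∧ 𝔞 t = ⊥ ∧
      ∀ i < t, 𝔞 (i + 1) ≤ 𝔞 i ∧ (∀ X, InLie S X → ∀ Y ∈ 𝔞 (i + 1), X * Y - Y * X ∈ 𝔞 (i + 1)) ∧
        (Module.finrank ℂ (𝔞 i) < Module.finrank ℂ (𝔞 (i + 1)) + g * (2 * g + 1) ∨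
          ∀ X ∈ 𝔞 i, ∀ Y ∈ 𝔞 i, X * Y - Y * X ∈ 𝔞 (i + 1))

/-- Second condition on `M_0`: up to a common factor the entries of `C₀` are algebraic, with equations of degree at most `e`,
over the field generated by `2 g - 2` numbers. -/
def FewPeriods (g e : ℕ) {r : ℕ} (C₀ : Matrix (Fin r) (Fin r) ℂ) : Prop :=
  ∃ (s : ℕ) (β : Fin s → ℂ), s + 2 ≤ 2 * g ∧ ∃ κ : ℂ, κ ≠ 0 ∧ ∀ i j, AlgebraicOver e β (κ * C₀ i j)

/-- the field of rational numbers -/
theorem exists_field {D : ℕ} (hD : 1 ≤ D) : ∃ K : Subfield ℂ, FiniteDimensional ℚ K ∧ Module.finrank ℚ K ≤ D :=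
  ⟨(⊥ : IntermediateField ℚ ℂ).toSubfield, (inferInstance : FiniteDimensional ℚ (⊥ : IntermediateField ℚ ℂ)),
    (le_of_eq IntermediateField.finrank_bot).trans hD⟩

/-- The members of the chain for block triangular matrices; the row and the column `i` belong to the block `c i`. -/
def blockChain {r : ℕ} (c : Fin r → ℕ) (M k : ℕ) : Submodule ℂ (Matrix (Fin r) (Fin r) ℂ) where
  carrier := {X | ∀ i j : Fin r, c j < c i + (k - M) ∨ (c i = c j ∧ c i < k) → X i j = 0}
  zero_mem' _ _ _ := rfl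
  add_mem' {x y} hx hy i j h := by rw [Matrix.add_apply, hx i j h, hy i j h, add_zero]
  smul_mem' c x hx i j h := by rw [Matrix.smul_apply, hx i j h, smul_zero]

theorem blockChain_mul {r : ℕ} {c : Fin r → ℕ} {M k : ℕ} {X Y : Matrix (Fin r) (Fin r) ℂ}
    (hX : ∀ i j, c j < c i → X i j = 0) (hY : Y ∈ blockChain c M k) : X * Y ∈ blockChain c M k ∧ Y * X ∈ blockChain c M k := by
  constructor
  · intro i j h
    rw [Matrix.mul_apply]
    refine Finset.sum_eq_zero fun s _ => ?_
    by_cases h1 : c s < c i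
    · rw [hX i s h1, zero_mul]
    · rw [hY s j (by omega), mul_zero]
  · intro i j h
    rw [Matrix.mul_apply]
    refine Finset.sum_eq_zero fun s _ => ?_
    by_cases h1 : c j < c s
    · rw [hX s j h1, mul_zero]
    · rw [hY i s (by omega), zero_mul]

/-- **Example.** All iterated extensions of objects of ranks `ρ` with `ρ² < g (2 g + 1)` satisfy the first condition: it is
sufficient that `C₀` is block triangular with blocks of these sizes; the row and the column `i` belong to the block `c i`. -/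
theorem noLargeFactor_of_blocks {g D r : ℕ} (hD : 1 ≤ D) {C₀ : Matrix (Fin r) (Fin r) ℂ} (hC₀ : IsUnit C₀)
    (c : Fin r → ℕ) (h : ∀ i j : Fin r, c j < c i → C₀ i j = 0)
    (hr : ∀ k, Fintype.card {i : Fin r // c i = k} * Fintype.card {i : Fin r // c i = k} < g * (2 * g + 1)) :
    NoLargeFactor g D C₀ := by
  obtain ⟨K, hK, hKD⟩ := exists_field hD
  obtain ⟨M, hM⟩ : ∃ M, ∀ i, c i < M :=
    ⟨∑ i, (c i + 1), fun i => lt_of_lt_of_le (Nat.lt_succ_self _)
      (Finset.single_le_sum (f := fun i => c i + 1) (fun _ _ => Nat.zero_le _) (Finset.mem_univ i))⟩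
  have hmul : ∀ {X Y : Matrix (Fin r) (Fin r) ℂ}, (∀ i j, c j < c i → X i j = 0) → (∀ i j, c j < c i → Y i j = 0) →
      ∀ i j, c j < c i → (X * Y) i j = 0 := by
    intro X Y hX hY i j hij
    rw [Matrix.mul_apply]
    refine Finset.sum_eq_zero fun s _ => ?_
    by_cases h1 : c s < c i
    · rw [hX i s h1, zero_mul]
    · rw [hY s j (by omega), mul_zero]
  have hinv : ∀ {X : Matrix (Fin r) (Fin r) ℂ}, IsUnit X → (∀ i j, c j < c i → X i j = 0) →
      ∀ i j, c j < c i → X⁻¹ i j = 0 := by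
    intro X hu hX i j hij
    have : Invertible X := hu.invertible
    have h1 : X.BlockTriangular c := fun i j hij => hX i j hij
    exact Matrix.blockTriangular_inv_of_blockTriangular h1 hij
  have h1 : ∀ i j, c j < c i → (1 : Matrix (Fin r) (Fin r) ℂ) i j = 0 := by
    intro i j hij
    exact Matrix.one_apply_ne (by rintro rfl; omega)
  have hLie : ∀ X, InLie {x : Matrix (Fin r) (Fin r) ℂ | IsUnit x ∧ ∀ i j, c j < c i → x i j = 0} X →
      ∀ i j, c j < c i → X i j = 0 := by
    intro X hX i j hij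
    have h2 := Pool.Agent.Helper880_R3.exp_HD X 0 i j
    rw [zero_smul, Pool.Agent.Helper880_R3.exp_zero', Matrix.mul_one] at h2
    have h3 : (fun u : ℂ => NormedSpace.exp (u • X) i j) = fun _ => 0 := by
      funext u
      have h4 := (hX u 1 ⟨isUnit_one, h1⟩).2 i j hij
      rwa [Matrix.mul_one] at h4
    rw [h3] at h2
    exact (hasDerivAt_const _ _).unique h2 |>.symm
  refine ⟨K, {x | IsUnit x ∧ ∀ i j, c j < c i → x i j = 0}, hK, hKD,
    ⟨fun x hx y hy z hz => ⟨(hx.1.mul (Pool.Agent.H936.V.inv_unit hy.1)).mul hz.1,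
      hmul (hmul hx.2 (hinv hy.1 hy.2)) hz.2⟩, {p | ∃ i j : Fin r, c j < c i ∧ p = MvPolynomial.X (i, j)},
    fun x => ?_⟩, fun σ x hx y hy => ⟨(x * y⁻¹).map σ, ⟨?_, ?_⟩, 1, ⟨isUnit_one, h1⟩, by rw [inv_one, Matrix.mul_one]⟩,
    ⟨hC₀, h⟩, M + M, blockChain c M, fun X hX => ?_, ?_, fun k hk => ⟨?_, fun X hX Y hY => ?_, ?_⟩⟩
  · constructor
    · rintro ⟨hx, hx'⟩
      refine ⟨hx, ?_⟩
      rintro p ⟨i, j, hij, rfl⟩
      rw [MvPolynomial.map_X, MvPolynomial.eval_X]
      exact hx' i j hij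
    · rintro ⟨hx, hx'⟩
      refine ⟨hx, fun i j hij => ?_⟩
      have h2 := hx' _ ⟨i, j, hij, rfl⟩
      rwa [MvPolynomial.map_X, MvPolynomial.eval_X] at h2
  · exact (hx.1.mul (Pool.Agent.H936.V.inv_unit hy.1)).map (σ : ℂ →+* ℂ).mapMatrix
  · intro i j hij
    rw [Matrix.map_apply, hmul hx.2 (hinv hy.1 hy.2) i j hij, map_zero]
  · intro i j hij
    exact hLie X hX i j (by omega)
  · rw [Submodule.eq_bot_iff]
    intro X hX
    ext i j
    have h2 := hM j
    exact hX i j (Or.inl (by omega))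
  · intro X hX i j hij
    exact hX i j (by omega)
  · obtain ⟨h2, h3⟩ := blockChain_mul (hLie X hX) hY
    exact Submodule.sub_mem _ h2 h3
  · by_cases hkM : k < M
    · left
      let ρ : blockChain c M k →ₗ[ℂ] Matrix {i : Fin r // c i = k} {i : Fin r // c i = k} ℂ :=
        { toFun := fun X => Matrix.of fun i j => X.1 i.1 j.1
          map_add' := fun _ _ => rfl
          map_smul' := fun _ _ => rfl }
      have h2 := LinearMap.finrank_range_add_finrank_ker ρ
      have h3 : Module.finrank ℂ (LinearMap.range ρ) < g * (2 * g + 1) := by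
        refine lt_of_le_of_lt (Submodule.finrank_le _) ?_
        rw [Module.finrank_matrix, Module.finrank_self, mul_one]
        exact hr k
      have h4 : Module.finrank ℂ (LinearMap.ker ρ) ≤ Module.finrank ℂ (blockChain c M (k + 1)) := by
        let f : LinearMap.ker ρ →ₗ[ℂ] blockChain c M (k + 1) :=
          ((blockChain c M k).subtype ∘ₗ (LinearMap.ker ρ).subtype).codRestrict (blockChain c M (k + 1)) (by
            rintro ⟨⟨X, hX⟩, hX0⟩ i j hij
            show X i j = 0
            by_cases h5 : c i = k ∧ c j = k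
            · exact congrFun (congrFun hX0 ⟨i, h5.1⟩) ⟨j, h5.2⟩
            · exact hX i j (by omega))
        refine LinearMap.finrank_le_finrank_of_injective (f := f) ?_
        intro x y hxy
        have h5 : ((f x : blockChain c M (k + 1)) : Matrix (Fin r) (Fin r) ℂ) = (f y : blockChain c M (k + 1)) := by
          rw [hxy]
        exact Subtype.ext (Subtype.ext h5)
      omega
    · right
      intro X hX Y hY i j hij
      have h2 : ∀ {X Y : Matrix (Fin r) (Fin r) ℂ}, X ∈ blockChain c M k → Y ∈ blockChain c M k → (X * Y) i j = 0 := by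
        intro X Y hX hY
        rw [Matrix.mul_apply]
        refine Finset.sum_eq_zero fun s _ => ?_
        have h3 := hM i
        have h4 := hM s
        by_cases h1 : c s < c i + (k - M) ∨ c i = c s
        · rw [hX i s (by omega), zero_mul]
        · rw [hY s j (by omega), mul_zero]
      rw [Matrix.sub_apply, h2 hX hY, h2 hY hX, sub_zero]

section
variable {n N r : ℕ}

/-- the block matrix `x ⊕ X_1 ⊕ … ⊕ X_N` -/
def total (x : Matrix (Fin r) (Fin r) ℂ) (X : Fin N → Matrix (Fin n) (Fin n) ℂ) :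
    Matrix (Fin r ⊕ (Fin n × Fin N)) (Fin r ⊕ (Fin n × Fin N)) ℂ :=
  Matrix.fromBlocks x 0 0 (Matrix.blockDiagonal X)

/-- The torsor `T_pol` of the isomorphisms `z ⊕ … ⊕ z ⊕ X_1 ⊕ … ⊕ X_N` of an `r`-fold sum of the object `ℚ(-1)` and of the
`M_j` which respect the polarisations `Q_j` (de Rham) and `H` (Betti), with values in `ℚ(-w_j)`. -/
def torsorOf (r : ℕ) (H : Matrix (Fin n) (Fin n) ℚ) (Q : Fin N → Matrix (Fin n) (Fin n) ℂ) (w : Fin N → ℤ) :
    Set (Matrix (Fin r ⊕ (Fin n × Fin N)) (Fin r ⊕ (Fin n × Fin N)) ℂ) :=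
  {y | ∃ z : ℂ, z ≠ 0 ∧ ∃ X : Fin N → Matrix (Fin n) (Fin n) ℂ, y = total (z • 1) X ∧
    ∀ j, X j * Q j * (X j)ᵀ = z ^ (w j) • toC H}

/-- the matrix of `M_0 ⊕ M_0^∨` -/
noncomputable def withDual (x : Matrix (Fin r) (Fin r) ℂ) : Matrix (Fin r ⊕ Fin r) (Fin r ⊕ Fin r) ℂ :=
  Matrix.fromBlocks x 0 0 (x⁻¹)ᵀ

/-- the matrix of `(M_0 ⊕ M_0^∨)^⊗κ₀ ⊗ (M_1 ⊕ … ⊕ M_N)^⊗κ`, where the matrices of `M_0` and `M_j` are `x` and `X_j` -/
noncomputable def tensor (κ₀ κ : Type) [Fintype κ₀] [Fintype κ] (x : Matrix (Fin r) (Fin r) ℂ)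
    (X : Fin N → Matrix (Fin n) (Fin n) ℂ) :
    Matrix ((κ₀ → Fin r ⊕ Fin r) × (κ → Fin n × Fin N)) ((κ₀ → Fin r ⊕ Fin r) × (κ → Fin n × Fin N)) ℂ :=
  Matrix.of fun I J => (∏ k, withDual x (I.1 k) (J.1 k)) * ∏ k, Matrix.blockDiagonal X (I.2 k) (J.2 k)

/-- The product of the polarisations of the `M_j`, `j = b l`, `l : Fin m`; the polarisation of `M_j` is the tensor `H` in
`M_j ⊗ M_j`, placed in the tensor factors `e (l, 0)` and `e (l, 1)`. -/
def polarisations (H : Matrix (Fin n) (Fin n) ℚ) {κ : Type} {m : ℕ} (e : Fin m × Fin 2 ≃ κ) (b : Fin m → Fin N)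
    (I : κ → Fin n × Fin N) : ℚ :=
  ∏ l, if (I (e (l, 0))).2 = b l ∧ (I (e (l, 1))).2 = b l then H (I (e (l, 0))).1 (I (e (l, 1))).1 else 0

/-- All classes are combinations of classes of the form `u ⊗ (product of polarisations)`: if a tensor `α` of
`(M_0 ⊕ M_0^∨)^⊗κ₀ ⊗ (M_1 ⊕ … ⊕ M_N)^⊗κ` with coefficients in `K` is mapped to a multiple `ξ τ` of a rational tensor `τ`
on the Betti side, then `τ` is a linear combination of tensors `u ⊗ ∏ H` with rational `u` in `(M_0 ⊕ M_0^∨)^⊗κ₀`. -/
def ClassesFromPolarisations (K : Subfield ℂ) (C₀ : Matrix (Fin r) (Fin r) ℂ) (H : Matrix (Fin n) (Fin n) ℚ)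
    (P : Fin N → Matrix (Fin n) (Fin n) ℂ) : Prop :=
  ∀ (κ₀ κ : Type) [Fintype κ₀] [Fintype κ] [DecidableEq κ₀] [DecidableEq κ]
    (α : (κ₀ → Fin r ⊕ Fin r) × (κ → Fin n × Fin N) → K) (τ : (κ₀ → Fin r ⊕ Fin r) × (κ → Fin n × Fin N) → ℚ) (ξ : ℂ),
    ξ ≠ 0 → (tensor κ₀ κ C₀ P).mulVec (fun J => (α J : ℂ)) = (fun I => ξ * (τ I : ℂ)) →
    τ ∈ Submodule.span ℚ {G | ∃ (m : ℕ) (e : Fin m × Fin 2 ≃ κ) (b : Fin m → Fin N) (u : (κ₀ → Fin r ⊕ Fin r) → ℚ),
      G = fun I => polarisations H e b I.2 * u I.1}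

/-- The conclusion for one tuple of fibres; `P j` is the period matrix of the fibre with number `j`. -/
def Good (D : ℕ) (C₀ : Matrix (Fin r) (Fin r) ℂ) (H : Matrix (Fin n) (Fin n) ℚ)
    (P : Fin N → Matrix (Fin n) (Fin n) ℂ) : Prop :=
  (∀ K : Subfield ℂ, FiniteDimensional ℚ K → Module.finrank ℚ K ≤ D →
    -- 1: classes
    ClassesFromPolarisations K C₀ H P ∧
    ∀ S : Set (Matrix (Fin r ⊕ (Fin n × Fin N)) (Fin r ⊕ (Fin n × Fin N)) ℂ), IsSubtorsor K S → RationalGroup S →
    total C₀ P ∈ S →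
    -- 2: stability under the symplectic groups
    (∀ γ : Fin N → Matrix (Fin n) (Fin n) ℂ, (∀ j, γ j * toC H * (γ j)ᵀ = toC H) → ∀ x ∈ S, total 1 γ * x ∈ S) ∧
    -- 3: the absolute case
    (0 < r → C₀ = (2 * Real.pi * Complex.I : ℂ) • 1 →
      ∀ (Q : Fin N → Matrix (Fin n) (Fin n) ℂ) (w : Fin N → ℤ), S ⊆ torsorOf r H Q w → S = torsorOf r H Q w)) ∧
  -- 4: the fibres are not special
  (∀ j, ¬ Special D H (P j)) ∧
  -- 5: there are no homomorphisms
  ∀ i j, i ≠ j → ∀ K : Subfield ℂ, FiniteDimensional ℚ K → Module.finrank ℚ K ≤ D → ∀ α : Matrix (Fin n) (Fin n) ℚ,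
    (∀ k l, ((P i)⁻¹ * toC α * P j) k l ∈ K) → α = 0

end

/-! ### Auxiliary lemmas -/

theorem map_eq {n : ℕ} (M : Matrix (Fin n) (Fin n) ℚ) : toC M = Pool.Agent.Y119.HY.cm M := by
  ext i j
  rw [Pool.Agent.Y119.HY.cm_apply]
  rfl

theorem pres_of {g : ℕ} {A : AbVar g} {H : Matrix (Fin (2 * g)) (Fin (2 * g)) ℚ}
    {P : Matrix (Fin (2 * g)) (Fin (2 * g)) ℂ} (h : Presents A H P) : ∃ R, Pool.Agent.H936.SL.Pres A H P R := by
  obtain ⟨R, T, q, hR, hP, hT, hq, hPT, hE⟩ := h
  set e := Pool.Agent.R917.eqv g with he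
  set Ts : Matrix (Fin (2 * g)) (Fin (2 * g)) ℂ := T.submatrix e.symm id with hTs
  have h1 : P = Pool.Agent.Y119.HY.cm R * Pool.Agent.R917.PM A * Ts := by
    rw [hPT, map_eq, Matrix.mul_assoc, Matrix.mul_assoc]
    congr 1
    ext a b
    rw [Matrix.mul_apply, Matrix.mul_apply, ← Equiv.sum_comp e]
    refine Finset.sum_congr rfl fun i _ => ?_
    rw [Pool.Agent.R917.PM_apply, hTs, Matrix.submatrix_apply, Equiv.symm_apply_apply]
    rfl
  have h2 : IsUnit Ts.det := by
    have h3 := (Matrix.isUnit_iff_isUnit_det _).1 hP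
    rw [h1, Matrix.det_mul] at h3
    exact isUnit_of_mul_isUnit_right h3
  refine ⟨R, Ts, Ts⁻¹, q, (Matrix.isUnit_iff_isUnit_det _).1 hR, Matrix.mul_nonsing_inv _ h2, fun i j => hT _ _, hq, h1, ?_⟩
  ext a b
  have h3 := hE a b
  have h4 : ∀ c d, riemannForm A.lam A.η (A.lam c) (A.lam d) = ((Pool.Agent.H936.SL.EM A c d : ℚ) : ℂ) := by
    intro c d
    have h5 := A.rf_eq (Pi.single c 1) (Pi.single d 1)
    have h6 : ∀ c : Fin (2 * g), A.per (Pi.single c 1) = A.lam c := by
      intro c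
      have h7 := A.per_bas c
      have h8 : A.bas c = Pi.single c 1 := Pi.basisFun_apply ℚ (Fin (2 * g)) c
      rwa [h8] at h7
    rw [h6, h6] at h5
    exact h5
  simp only [h4] at h3
  have h5 : (((R * Pool.Agent.H936.SL.EM A * Rᵀ) a b : ℚ) : ℂ) = ((q * H a b : ℚ) : ℂ) := by
    push_cast
    rw [← h3, Matrix.mul_apply]
    push_cast
    rw [Finset.sum_comm]
    refine Finset.sum_congr rfl fun d _ => ?_
    rw [Matrix.mul_apply, Matrix.transpose_apply]
    push_cast
    rw [Finset.sum_mul]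
  rw [Matrix.smul_apply, smul_eq_mul]
  exact_mod_cast h5

/-- special abelian varieties -/
theorem special_of {g D : ℕ} (hg : 0 < g) {A₀ : AbVar g} {H : Matrix (Fin (2 * g)) (Fin (2 * g)) ℚ}
    {C : Matrix (Fin (2 * g)) (Fin (2 * g)) ℂ} (hA : Presents A₀ H C) (hHu : IsUnit H) (hH : Hᵀ = -H) (hC : IsUnit C)
    (h : Special D H C) : Pool.Agent.H936.V.SpecialC D H C := by
  have hd := (Matrix.isUnit_iff_isUnit_det _).1 hHu
  have hC' := (Matrix.isUnit_iff_isUnit_det _).1 hC
  obtain ⟨R, hp⟩ := pres_of hA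
  obtain ⟨K, hK, hD, h⟩ := h
  have hKalg : ∀ x ∈ K, IsAlgebraic ℚ x := by
    intro x hx
    have : NumberField K := { to_charZero := inferInstance, to_finiteDimensional := hK }
    have h6 : IsAlgebraic ℚ (⟨x, hx⟩ : K) := Algebra.IsAlgebraic.isAlgebraic _
    exact h6.algebraMap (A := ℂ)
  rcases h with ⟨α, hα, ha⟩ | ⟨S, hS, hSr, hm, γ, hγ, x, hx, hx'⟩
  · simp only [map_eq] at ha
    obtain ⟨S, hS⟩ := Pool.Agent.H936.V.spc_of_mat hg hp hH hd hC' hKalg hα ha
    exact ⟨A₀, R, K, S, hK, hD, hS⟩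
  · have hHc := Pool.Agent.H936.G.cm_unit hd
    have hHct : (Pool.Agent.Y119.HY.cm H)ᵀ = -Pool.Agent.Y119.HY.cm H := by
      rw [← Pool.Agent.Y119.HY.cm_transpose, hH, Pool.Agent.Y119.HY.cm_neg]
    obtain ⟨u, hu, hu'⟩ := Pool.Agent.Y123.GN.quot_GB (X := 1) (Y := γ) (μ := 1)
      (B := Pool.Agent.Y119.HY.cm H) (Q := Pool.Agent.Y119.HY.cm H) one_ne_zero isUnit_one
      (by rw [Matrix.one_mul, Matrix.transpose_one, Matrix.mul_one, one_smul])
      (by rw [one_smul, ← map_eq]; exact hγ) (Or.inl ⟨(Matrix.isUnit_iff_isUnit_det _).2 hHc, hHct⟩)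
    refine ⟨A₀, R, K, S, hK, hD, hKalg, Pool.Agent.Y123.ST.subT_iff.1 hS, hSr, hm, hp, u, hu, x, hx, ?_⟩
    rw [Matrix.mul_one] at hu'
    rw [hu']
    exact hx'

/-- the conditions on `M_0` -/
theorem adm_of {g D e r : ℕ} {C₀ : Matrix (Fin r) (Fin r) ℂ} (h : NoLargeFactor g D C₀ ∨ FewPeriods g e C₀) :
    Pool.Agent.H936.X.Adm g D e C₀ := by
  rcases h with ⟨K, S, hK, hD, hS, hSr, hm, t, 𝔞, h1, h2, h3⟩ | ⟨s, β, hs, hβ⟩
  · have hS' := Pool.Agent.Y123.ST.subT_iff.1 hS
    have hL : ∀ X ∈ Pool.Agent.H936.SL.Lm S, InLie S X := by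
      intro X hX s x hx
      refine Pool.Agent.Helper880_R3.exp_stab hS' ?_ hx
      exact (Pool.Agent.H936.SL.Lm S).smul_mem s hX
    have hch : (2 * g + 1).choose 2 = g * (2 * g + 1) := by
      rw [Nat.choose_two_right, Nat.add_sub_cancel]
      have h4 : (2 * g + 1) * (2 * g) = 2 * (g * (2 * g + 1)) := by ring
      rw [h4, Nat.mul_div_cancel_left _ (by norm_num)]
    refine Or.inr ⟨K, S, hK, hD, hS', hSr, hm, t, 𝔞, fun X hX => h1 X (hL X hX), h2, fun i hi => ?_⟩
    obtain ⟨h4, h5, h6⟩ := h3 i hi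
    refine ⟨h4, fun X hX Y hY => h5 X (hL X hX) Y hY, ?_⟩
    rw [hch]
    exact h6
  · exact Or.inl ⟨s, β, hs, hβ⟩

/-- from the stability to the conclusion -/
theorem good_of {g N D r : ℕ} (hg : 0 < g) {C₀ : Matrix (Fin r) (Fin r) ℂ} (hC₀ : IsUnit C₀)
    {H : Matrix (Fin (2 * g)) (Fin (2 * g)) ℚ}
    (hHu : IsUnit H) (hHt : Hᵀ = -H) {P : Fin N → Matrix (Fin (2 * g)) (Fin (2 * g)) ℂ}
    (hpres : ∀ j, ∃ A : AbVar g, Presents A H (P j))
    (h : ∀ K : Subfield ℂ, FiniteDimensional ℚ K → Module.finrank ℚ K ≤ D →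
      ∀ S : Set (Matrix (Fin r ⊕ (Fin (2 * g) × Fin N)) (Fin r ⊕ (Fin (2 * g) × Fin N)) ℂ), IsSubtorsor K S →
      RationalGroup S → total C₀ P ∈ S → ∀ γ : Fin N → (Matrix (Fin (2 * g)) (Fin (2 * g)) ℂ)ˣ,
      (∀ j, γ j ∈ Pool.Agent.Y123.GN.GB (Pool.Agent.Y119.HY.cm H)) →
      ∀ x ∈ S, total 1 (fun j => (γ j : Matrix (Fin (2 * g)) (Fin (2 * g)) ℂ)) * x ∈ S) : Good D C₀ H P := by
  have hHd : IsUnit H.det := (Matrix.isUnit_iff_isUnit_det _).1 hHu
  have hPu : ∀ j, IsUnit (P j) := fun j => by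
    obtain ⟨A, R, T, q, hR, hP, h1⟩ := hpres j
    exact hP
  have hHc : IsUnit (Pool.Agent.Y119.HY.cm H).det := Pool.Agent.H936.G.cm_unit hHd
  have hHct : (Pool.Agent.Y119.HY.cm H)ᵀ = -Pool.Agent.Y119.HY.cm H := by
    rw [← Pool.Agent.Y119.HY.cm_transpose, hHt, Pool.Agent.Y119.HY.cm_neg]
  have hSpf : Pool.Agent.Y123.GN.Spf (Pool.Agent.Y119.HY.cm H) :=
    ⟨(Matrix.isUnit_iff_isUnit_det _).2 hHc, hHct⟩
  have hstab0 : ∀ K : Subfield ℂ, FiniteDimensional ℚ K → Module.finrank ℚ K ≤ D →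
      ∀ S : Set (Matrix (Fin r ⊕ (Fin (2 * g) × Fin N)) (Fin r ⊕ (Fin (2 * g) × Fin N)) ℂ), IsSubtorsor K S →
      RationalGroup S → total C₀ P ∈ S →
      ∀ γ : Fin N → Matrix (Fin (2 * g)) (Fin (2 * g)) ℂ, (∀ j, γ j * toC H * (γ j)ᵀ = toC H) →
        ∀ x ∈ S, total 1 γ * x ∈ S := by
    intro K hK hKD S hS hSr hmem γ hγ x hx
    choose u hu hu' using fun j => Pool.Agent.Y123.GN.quot_GB (X := 1) (Y := γ j) (μ := 1)
      (B := Pool.Agent.Y119.HY.cm H) (Q := Pool.Agent.Y119.HY.cm H) one_ne_zero isUnit_one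
      (by rw [Matrix.one_mul, Matrix.transpose_one, Matrix.mul_one, one_smul])
      (by rw [one_smul, ← map_eq]; exact hγ j) (Or.inl hSpf)
    have h1 := h K hK hKD S hS hSr hmem u hu x hx
    have h2 : (fun j => (u j : Matrix (Fin (2 * g)) (Fin (2 * g)) ℂ)) = γ := by
      funext j
      have h3 := hu' j
      rwa [Matrix.mul_one] at h3
    rwa [h2] at h1
  have hstab : Pool.Agent.H936.V.Stab D H C₀ P := by
    intro K hK hKD S hS hSr hmem γ hγ x hx
    refine hstab0 K hK hKD S (Pool.Agent.Y123.ST.subT_iff.2 hS) hSr hmem γ (fun j => ?_) x hx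
    rw [map_eq]
    exact hγ j
  have hunit : IsUnit (total C₀ P) := Pool.Agent.H936.V.Tot_unit_of hC₀ hPu
  refine ⟨fun K hK hKD => ⟨?_, fun S hS hSr hmem => ⟨hstab0 K hK hKD S hS hSr hmem, ?_⟩⟩, fun j hs => ?_,
    fun i j hij K hK hKD α ha => ?_⟩
  · intro κ₀ κ _ _ _ _ α τ ξ hξ hc
    have h1 := Pool.Agent.H936.X.tens_of (κ₀ := κ₀) (κ := κ) (C₀ := C₀) (P := P) (K := K) hHt hHd hunit
      (fun S hS hSr hm γ hγ => hstab K hK hKD S hS hSr hm γ hγ _ hm) α τ hξ hc
    have h2 : ∀ G : (κ → Fin (2 * g) × Fin N) → (κ₀ → Fin r ⊕ Fin r) → ℚ, G ∈ Submodule.span ℚ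
        {G : (κ → Fin (2 * g) × Fin N) → (κ₀ → Fin r ⊕ Fin r) → ℚ |
        ∃ (m : ℕ) (e : Fin m × Fin 2 ≃ κ) (b : Fin m → Fin N) (u : (κ₀ → Fin r ⊕ Fin r) → ℚ),
          G = Pool.Agent.H936.X.prM H e b u} →
        (fun I : (κ₀ → Fin r ⊕ Fin r) × (κ → Fin (2 * g) × Fin N) => G I.2 I.1) ∈ Submodule.span ℚ
          {G : (κ₀ → Fin r ⊕ Fin r) × (κ → Fin (2 * g) × Fin N) → ℚ |
          ∃ (m : ℕ) (e : Fin m × Fin 2 ≃ κ) (b : Fin m → Fin N) (u : (κ₀ → Fin r ⊕ Fin r) → ℚ),
            G = fun I => polarisations H e b I.2 * u I.1} := by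
      intro G hG
      induction hG using Submodule.span_induction with
      | mem G hG =>
        obtain ⟨m, e, b, u, rfl⟩ := hG
        exact Submodule.subset_span ⟨m, e, b, u, rfl⟩
      | zero => exact Submodule.zero_mem _
      | add x y _ _ hx hy => exact Submodule.add_mem _ hx hy
      | smul c x _ hx => exact Submodule.smul_mem _ c hx
    exact h2 _ h1
  · intro hr hC Q w hST
    have hS' := Pool.Agent.Y123.ST.subT_iff.1 hS
    have hKalg : ∀ x ∈ K, IsAlgebraic ℚ x := by
      intro x hx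
      have : NumberField K := { to_charZero := inferInstance, to_finiteDimensional := hK }
      have h6 : IsAlgebraic ℚ (⟨x, hx⟩ : K) := Algebra.IsAlgebraic.isAlgebraic _
      exact h6.algebraMap (A := ℂ)
    have hFT : torsorOf r H Q w = Pool.Agent.Helper880_R3.FT r (Pool.Agent.Y119.HY.cm H) Q w (fun _ => 0) fun _ => 1 := by
      ext y
      constructor
      · rintro ⟨z, hz, X, hy, hX⟩
        refine ⟨z, hz, X, hy, fun j => ⟨?_, Or.inl hSpf⟩⟩
        rw [← map_eq]
        exact hX j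
      · rintro ⟨z, hz, X, hy, hX⟩
        refine ⟨z, hz, X, hy, fun j => ?_⟩
        rw [map_eq]
        exact (hX j).1
    have hgrp := h K hK hKD S hS hSr hmem
    rw [hC] at hmem
    rw [hFT] at hST ⊢
    exact Pool.Agent.Helper880_R3.absolute hKalg hr hS' hmem hgrp hST
  · obtain ⟨A, hA⟩ := hpres j
    exact Pool.Agent.H936.V.not_spc hC₀ hPu hstab j (special_of hg hA hHu hHt (hPu j) hs)
  · simp only [map_eq] at ha
    exact Pool.Agent.H936.V.no_hom hHt hHd hC₀ hPu hstab hij hK hKD ha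

/-- monotonicity in the degree -/
theorem adm_mono {g D e r : ℕ} {C₀ : Matrix (Fin r) (Fin r) ℂ} (h : Pool.Agent.H936.X.Adm g D e C₀) :
    Pool.Agent.H936.X.Adm g (max D 2) e C₀ := by
  rcases h with h | ⟨K, S, hK, hD, h⟩
  · exact Or.inl h
  · exact Or.inr ⟨K, S, hK, hD.trans (le_max_left _ _), h⟩

/-- **The theorem.** -/
theorem result (g N D r e : ℕ) (hg : 2 ≤ g) :
    ∃ E : ℕ, ∀ H h w b₀ : ℕ, 2 ≤ H → (H + h + w) ^ E ≤ b₀ →
    -- the polynomials
    ∀ f : Fin N → Polynomial ℤ, (∀ j k, |(f j).coeff k| ≤ H) →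
    -- the branch points and the Jacobians of the curves `y² = x f_j(x)`
    ∀ e₀ : Fin N → Fin (2 * g + 1) → ℝ,
      (∀ j, BranchPoints (Polynomial.X * (f j).map (Int.castRingHom ℝ)) (e₀ j)) →
      (∀ j, ∃ A₀ : AbVar g, Presents A₀ (polB (2 * g)) (periodMatrix (e₀ j))) →
    -- `f_j` is even, or the Jacobian of `y² = x f_j(x)` is special
      (∀ j, (f j).comp (-Polynomial.X) = f j ∨ Special D (polB (2 * g)) (periodMatrix (e₀ j))) →
    -- the parameters `c_j / b_j`
    ∀ (c : Fin N → ℤ) (b : Fin N → ℕ), (∀ j, c j ≠ 0 ∧ |c j| ≤ h) → (∀ j, b₀ ≤ b j ∧ b j ≤ b₀ + w) →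
      (∀ i j, i ≠ j → ((H : ℤ) + h) ^ E ≤ |(b i : ℤ) - b j|) →
    -- the branch points of the curves `y² = f_j(x) (x - c_j / b_j)` are real
    ∃ e₁ : Fin N → Fin (2 * g + 1) → ℝ,
      (∀ j, BranchPoints ((f j).map (Int.castRingHom ℝ) * (Polynomial.X - Polynomial.C ((c j : ℝ) / b j))) (e₁ j)) ∧
    -- and the conclusions hold for these curves
      ((∀ j, ∃ A : AbVar g, Presents A (polB (2 * g)) (periodMatrix (e₁ j))) →
        ∀ C₀ : Matrix (Fin r) (Fin r) ℂ, IsUnit C₀ → NoLargeFactor g D C₀ ∨ FewPeriods g e C₀ →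
        Good D C₀ (polB (2 * g)) fun j => periodMatrix (e₁ j)) := by
  obtain ⟨E, hE⟩ := Pool.Agent.H936.Y.main hg (D := max D 2) (le_trans (by norm_num) (le_max_right D 2)) N r e
  refine ⟨E, fun H h w b₀ hH hbig f hht e₀ he₀ hA₀ hspc c b hc hb hsep => ?_⟩
  have hg0 : 0 < g := by omega
  have hn : Even (2 * g) := even_two_mul g
  have hHd : IsUnit (polB (2 * g)).det := Pool.Agent.H936.Y.bm_unit hn
  have hHu : IsUnit (polB (2 * g)) := (Matrix.isUnit_iff_isUnit_det _).2 hHd
  have hHt : (polB (2 * g))ᵀ = -polB (2 * g) := Pool.Agent.H936.Y.bm_skew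
  choose a m ha h0 hea hf using fun j => Pool.Agent.H936.Y.exists_gap (he₀ j).1 (he₀ j).2
  have hf' : ∀ j, (Pool.Agent.H936.Y.fq (f j)).map (algebraMap ℚ ℝ) = ∏ i, (Polynomial.X - Polynomial.C (a j i)) := by
    intro j
    rw [← hf j]
    unfold Pool.Agent.H936.Y.fq
    rw [Polynomial.map_map]
    congr 1
  obtain ⟨hgap, hmain⟩ := hE H h w b₀ hH hbig f a m hht ha h0 hf' c b hc hb fun i j hij => by
    have := hsep i j hij
    push_cast
    exact this
  have hC : ∀ j, periodMatrix (e₀ j) = Pool.Agent.Y118.HP.CM (a j) (m j) 0 := by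
    intro j
    rw [hea j]
    rfl
  refine ⟨fun j => Pool.Agent.Y118.HP.er (a j) (m j) ((c j : ℝ) / b j), fun j =>
    ⟨Pool.Agent.Y118.HP.er_strictMono (ha j) (hgap j), ?_⟩, fun hA C₀ hC₀ hadm => ?_⟩
  · rw [Pool.Agent.Y118.HP.prod_er, hf j]
  · refine good_of hg0 hC₀ hHu hHt hA fun K hK hKD S hS hSr hmem => ?_
    refine hmain (fun j => ?_) (fun j => ?_) C₀ ((Matrix.isUnit_iff_isUnit_det _).1 hC₀).ne_zero (adm_mono (adm_of hadm))
      K S hK (hKD.trans (le_max_left D 2)) (Pool.Agent.Y123.ST.subT_iff.1 hS) hSr hmem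
    · rw [← hC j]
      obtain ⟨A₀, hA₀⟩ := hA₀ j
      rcases hspc j with h1 | h1
      · obtain ⟨R, hR⟩ := pres_of hA₀
        rw [hC j] at hR ⊢
        refine Pool.Agent.H936.Y.centre_special hg0 (le_max_right D 2) (ha j) (h0 j) (hf' j)
          (Pool.Agent.H936.Y.roots_even (ha j) (hf j) hn ?_) hR
        have h2 := congrArg (Polynomial.map (Int.castRingHom ℝ)) h1
        rwa [Polynomial.map_comp, Polynomial.map_neg, Polynomial.map_X] at h2
      · refine Pool.Agent.H936.X.SpecialC.mono (special_of hg0 hA₀ hHu hHt ?_ h1) (le_max_left D 2)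
        rw [hC j]
        exact (Matrix.isUnit_iff_isUnit_det _).2 (Pool.Agent.H936.Y.CM_unit hn (ha j) (h0 j) (hf' j))
    · obtain ⟨A, hA⟩ := hA j
      obtain ⟨R, hR⟩ := pres_of hA
      exact ⟨A, R, hR⟩

end Pool.Agent.Results.MP_cbf1af_ag.NearEvenHyperellipticCurves
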