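import Pool.Agent.H367.OS.OTan
import Pool.Graph.R_pool_sql_team_seeded_2aa45f1a.Q193.LT.Per

/-!
# The period conjecture in one degree and single pieces of one sequence of cubics

A relation `r` of size `m` is one of the equations `x_i x_j = x_l`, `x_i + x_j = x_l`, `x_i = 1` with
`i, j, l < m`; the relations are numbered, the number of `r` is `ν(r)` (`relNum`). Let `G_m` be the
following polynomial with integral coefficients (`univG ℤ m`). There are variables `x_i` and `z_ij` for
`i, j < m`, a variable `c_r` for every relation `r`, and variables `y_{r,l}` for all relations `r` and
`l < (m + 1) 2 ^ ν(r)`. The equations (`eqnG`) are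

  `z_ij - x_i x_j`,  `c_r ^ 2 - c_r`,  `c_r ρ_r`,  `(1 - c_r) y_{r,l}`,

where `ρ_r` is the linear polynomial `z_ij - x_l`, `x_i + x_j - x_l` or `x_i - 1` of the relation.
`G_m` is the sum of the equations multiplied by further variables `t_e`, one for each equation. It has
degree three. Let `C_m` be the affine cubic hypersurface `G_m = 1` (`cubG R m` over the ring `R`); it is
smooth over the integers.

Let `M` be the category of motives over `ℚ` in the sense of André, a semisimple abelian category with
Tate twists `N ↦ N(a)`. For a separated scheme `X` of finite type over `ℚ` let `D.G w j X = Gr^W_w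
H^j_c(X)` be the part of weight `w` of the cohomology with compact supports, a motive over `ℚ`; for
smooth projective `Y` it is `h^j(Y)` if `j = w`, and zero otherwise.

`P` consists of the de Rham realization, the Betti realization, the comparison isomorphism and, for
each motive `N`, the dimension of the motivic Galois group of `N`; `mt N` is the dimension of the
Mumford-Tate group of the Betti realization of `N`, and `P.tr N` the transcendence degree of the field
of periods of `N`. `GPCMT P mt N` are the equalities `tr N = mt N = dim G_mot(N)`: the transcendence
degree of the periods is the dimension of the Mumford-Tate group (the statement of question Q1 for `N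
= h^j(Y)`), and the Mumford-Tate group has the dimension of the motivic Galois group.

For a number field `K`, an embedding `σ : K → ℂ` and a smooth projective scheme `Y` over `K` let `C.tr`,
`C.mt`, `C.mot` be the three numbers for `H^j(Y)`. `Holds C j K Y` are the equalities
`tr = mt = mot` for all `σ`. The scheme `Y` over `K` is a smooth projective scheme over `ℚ`, and its
cohomology over `ℚ` is the direct sum of the conjugates of `H^j(Y)`, see `FromQ`.

**Theorem.** Let `E_m` be the number of the equations, and for `N ∈ ℕ` let `e = (m + 1) N + E_m - 1`
(`esh m N`).

(1) For every degree `j` the equalities are true for `H^j` of all smooth projective varieties over all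
number fields if and only if for infinitely many `m` they are true for the single motives
`Gr^W_{j+2e} H^{j+2e+1}_c(C_m)(e)`, for all `N`. Then question Q1 has a positive answer in this degree
`j`.

(2) The hypersurfaces `C_m` decide the statement for the pieces of the cohomology (`DecidesPieces`).
For every affine scheme `Spec B` of finite type over `ℚ` and all large `m` there is an `N` such that
for `0 ≤ w ≤ 2 m + 1` and all `j` the statement for `Gr^W_w H^j_c(Spec B)` is equivalent to the one
for `Gr^W_{w+2e} H^{j+2e+1}_c(C_m)`. For every smooth projective `Y` over `ℚ`, every `d` and all large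
`m` there is an `e'` such that for all `i ≤ d` the statement for `h^i(Y)` is equivalent to the one for
`Gr^W_{i+2e'} H^{i+2e'+1}_c(C_m)`. The statements for the pieces of one `C_m` imply those for all
pieces of a given separated scheme `X` of finite type. (In all these statements there are the same
Tate twists on both sides, up to the shift by `e`.)

(3) For `j = 0` the equalities are known (Artin motives), so they are true for the motives
`Gr^W_{2e} H^{2e+1}_c(C_m)(e)`, for all large `m`.

(4) `G_m` has integral coefficients and degree at most three, and `C_m` is smooth over all rings.

The hypotheses on the motives are standard (`IsMot`): exact sequences, affine bundles, disjoint unions,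
the cohomology of affine spaces, the weights of `H^j_c(X)` are between `0` and `2 dim X`, monomorphisms
split, `Gr^W_w H^j_c(X)` is a direct factor of `h^w(Y)` for some smooth projective `Y` (it is a
subquotient, by the weight spectral sequence), and every smooth projective scheme has an affine bundle
whose total space is affine (Jouanolou).

Idea of the proof. The projection of `C_m` to the affine space with the coordinates `x, z, c, y` is an
affine bundle over the complement of the zero set `W_m` of the equations. The scheme `W_m` is the
disjoint union, over all sets `s` of relations (`c_r = 1` for `r ∈ s` and `c_r = 0` for the others), of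
the products `X_s × 𝔸 ^ ((m + 1) N(s))`, where `X_s` is the affine scheme defined by the relations in
`s` and `N(s) = ∑_{r ∈ s} 2 ^ ν(r)`. The numbers `N(s)` are different, and the weights of the
cohomology of `X_s` are between `0` and `2 m`. So the part of weight `w + 2 (m + 1) N(s)`,
`0 ≤ w ≤ 2 m + 1`, of the cohomology of `W_m` is the twist of the part of weight `w` of the cohomology of
`X_s`, and it is different from the weight of the cohomology of the affine space. Every affine scheme of
finite type over a prime field is an `X_s`, for all large `m`. The pieces of the cohomology of an
arbitrary scheme are direct factors of those of a disjoint union of affine schemes.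

The universal system of relations is the one of helper854 (`Pool.Agent.H854.SQ`).
-/

set_option autoImplicit false

open CategoryTheory CategoryTheory.Limits AlgebraicGeometry Pool.Agent.Y116.UV Pool.Agent.Z125.UN
  Pool.Agent.Q193.LT Pool.Agent.H854.SQ Pool.Agent.H367.OS

universe v u



namespace Pool.Agent.Results.MP_cbf1af_ag.PiecesOfOneSequence

/-- The transcendence degree of the field of periods, the dimension of the Mumford-Tate group and the
dimension of the motivic Galois group for the cohomology `H^j(Y)` of the smooth projective schemes `Y` over
the number fields `K` with an embedding in `ℂ`. -/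
structure Numbers where
  /-- the transcendence degree of the field of periods -/
  tr : ∀ (K : Type) [Field K] [NumberField K] (_ : K →+* ℂ), ℕ → Sch K → Cardinal.{0}
  /-- the dimension of the Mumford-Tate group -/
  mt : ∀ (K : Type) [Field K] [NumberField K] (_ : K →+* ℂ), ℕ → Sch K → ℕ
  /-- the dimension of the motivic Galois group -/
  mot : ∀ (K : Type) [Field K] [NumberField K] (_ : K →+* ℂ), ℕ → Sch K → ℕ

/-- The transcendence degree is the dimension of the Mumford-Tate group, which is the dimension of the
motivic Galois group. -/
def Holds (C : Numbers) (j : ℕ) (K : Type) [Field K] [NumberField K] (Y : Sch K) : Prop :=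
  ∀ σ : K →+* ℂ, C.tr K σ j Y = C.mt K σ j Y ∧ C.mt K σ j Y = C.mot K σ j Y

/-- **The period conjecture and single pieces of one sequence of cubic hypersurfaces over the
integers.** See the explanations above. -/
theorem result {M : Type u} [Category.{v} M] [Abelian M] {D : Pieces ℚ M}
    (h : IsMot D) {P : PeriodData ℚ M} {mt : M → ℕ} (hP : IsPeriodMT P mt) {C : Numbers}
    (describes : ∀ j : ℕ, FromQ (Holds C j) fun Y => GPCMT P mt (D.G j j Y))
    (artin : ∀ Y : Sch ℚ, SmoothProj Y → GPCMT P mt (D.G 0 0 Y)) :
    (∀ j : ℕ, (AllNF (Holds C j) ↔ ∃ᶠ m in Filter.atTop, ∀ N : ℕ,
        GPCMT P mt ((D.tw (esh m N)).obj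
          (D.G (j + 2 * esh m N) (j + 2 * esh m N + 1) (cubG ℚ m)))) ∧
      (AllNF (Holds C j) → ∀ (K : Type) [Field K] [NumberField K] (σ : K →+* ℂ) (Y : Sch K),
        SmoothProj Y → C.tr K σ j Y = C.mt K σ j Y)) ∧
    DecidesPieces D (GPCMT P mt) ∧
    (∃ᶠ m in Filter.atTop, ∀ N : ℕ, GPCMT P mt ((D.tw (esh m N)).obj
      (D.G (2 * esh m N) (2 * esh m N + 1) (cubG ℚ m)))) ∧
    ∀ m : ℕ, (univG ℤ m).totalDegree ≤ 3 ∧
      ∀ (R : Type) [CommRing R], MvPolynomial.map (Int.castRingHom R) (univG ℤ m) = univG R m ∧
        Smooth (cubG R m).hom := by
  have hf : FactorClosed (GPCMT P mt) := by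
    rintro N N' ⟨i, r, e⟩ hN
    exact GPCMT.factor hP i r e hN
  have hd := decides_pieces isPrimeField_rat h hf
  have h0 := hd.degree h.pieces hf.isoInv
  refine ⟨fun j => ⟨(describes j).all.trans (h0 j), fun g K _ _ σ Y hY => (g K Y hY σ).1⟩, hd, ?_,
    cubG_facts⟩
  have h1 := (h0 0).mp artin
  simpa using h1

end Pool.Agent.Results.MP_cbf1af_ag.PiecesOfOneSequence
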